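import Pool.Agent.Lib.MP_bdcdc5_co.AAbasic

/-!
# Almost all scales: a prime modulo which few elements of a set collide
-/

set_option autoImplicit false

namespace Pool.Agent.MPbdcdc5.AA

open Finset Real

theorem log_le_four (P : ℝ) (hP : 1 ≤ P) :
    log (4 * P) ≤ 4 * √(√P) ∧ 1 ≤ √(√P) := by
  have h1 : 1 ≤ √P := by
    rw [show (1 : ℝ) = √1 by simp]
    exact sqrt_le_sqrt hP
  have h2 : 1 ≤ √(√P) := by
    rw [show (1 : ℝ) = √1 by simp]
    exact sqrt_le_sqrt h1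
  refine ⟨?_, h2⟩
  have h3 : √(√P) ^ 4 = P := by
    have h4 : √(√P) ^ 4 = (√(√P) ^ 2) ^ 2 := by ring
    rw [h4, sq_sqrt (by linarith), sq_sqrt (by linarith)]
  have h5 : log (4 * P) = log 4 + 4 * log (√(√P)) := by
    rw [log_mul (by norm_num) (by linarith)]
    conv_lhs => rw [← h3, log_pow]
    push_cast
    ring
  have h6 : log (√(√P)) ≤ √(√P) - 1 := log_le_sub_one_of_pos (by linarith)
  have h7 : log 4 = 2 * log 2 := by
    rw [show (4 : ℝ) = 2 ^ 2 by norm_num, log_pow]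
    push_cast
    ring
  have h8 := log_two_lt_d9
  rw [h5, h7]
  linarith

theorem prime_sum_ge (P : ℕ) (hP : 6250000 ≤ P) :
    (P : ℝ) ≤ ∑ p ∈ (Ioc P (4 * P)).filter Nat.Prime, log (p : ℝ) := by
  have hP' : (6250000 : ℝ) ≤ P := by exact_mod_cast hP
  have e1 : Chebyshev.theta (P : ℝ) = ∑ p ∈ (Ioc 0 P).filter Nat.Prime, log (p : ℝ) := by
    rw [Chebyshev.theta, Nat.floor_natCast]
  have e4 : Chebyshev.theta ((4 * P : ℕ) : ℝ) =
      ∑ p ∈ (Ioc 0 (4 * P)).filter Nat.Prime, log (p : ℝ) := by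
    rw [Chebyshev.theta, Nat.floor_natCast]
  have h1 : ∑ p ∈ (Ioc P (4 * P)).filter Nat.Prime, log (p : ℝ) =
      Chebyshev.theta ((4 * P : ℕ) : ℝ) - Chebyshev.theta (P : ℝ) := by
    rw [e1, e4, sum_filter, sum_filter, sum_filter]
    have := sum_Ioc_consecutive (fun p : ℕ => if Nat.Prime p then log (p : ℝ) else 0)
      (Nat.zero_le P) (show P ≤ 4 * P by omega)
    linarith
  rw [h1]
  have h2 := Chebyshev.theta_ge (4 * P)
  have h3 := Chebyshev.theta_le_log4_mul_x (x := (P : ℝ)) (by linarith)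
  obtain ⟨h4, h5⟩ := log_le_four P (by linarith)
  obtain ⟨t, ht⟩ : ∃ t : ℝ, t = √(√(P : ℝ)) := ⟨_, rfl⟩
  rw [← ht] at h4 h5
  have ht2 : t ^ 2 = √(P : ℝ) := by rw [ht]; exact sq_sqrt (sqrt_nonneg _)
  have ht4 : t ^ 4 = P := by
    have : t ^ 4 = (t ^ 2) ^ 2 := by ring
    rw [this, ht2]
    exact sq_sqrt (by linarith)
  have ht50 : 50 ≤ t := by
    by_contra hcon
    push Not at hcon
    have h6 : t ^ 4 < 50 ^ 4 := pow_lt_pow_left₀ hcon (by linarith) (by norm_num)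
    rw [ht4] at h6
    norm_num at h6
    linarith
  have hsq : √((4 * P : ℕ) : ℝ) = 2 * t ^ 2 := by
    rw [ht2]
    push_cast
    rw [sqrt_mul (by norm_num), show (4 : ℝ) = 2 ^ 2 by norm_num, sqrt_sq (by norm_num)]
  have hl : log ((4 * P : ℕ) : ℝ) ≤ 4 * t := by
    push_cast
    exact h4
  have hl1 : log (((4 * P : ℕ) : ℝ) + 1) ≤ 4 * t + 1 := by
    have h6 : log (((4 * P : ℕ) : ℝ) + 1) ≤ log (2 * (4 * P)) := by
      refine log_le_log (by positivity) ?_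
      push_cast
      linarith
    have h7 : log (2 * (4 * (P : ℝ))) = log 2 + log (4 * P) := by
      rw [log_mul (by norm_num) (by positivity)]
    have h8 := log_two_lt_d9
    linarith
  have hl4 : log (4 : ℝ) = 2 * log 2 := by
    rw [show (4 : ℝ) = 2 ^ 2 by norm_num, log_pow]
    push_cast
    ring
  have hl2 := log_two_gt_d9
  rw [hl4] at h3
  rw [hsq] at h2
  have h9 : 2 * (2 * t ^ 2) * log ((4 * P : ℕ) : ℝ) ≤ 16 * t ^ 3 := by
    calc 2 * (2 * t ^ 2) * log ((4 * P : ℕ) : ℝ) ≤ 2 * (2 * t ^ 2) * (4 * t) :=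
          mul_le_mul_of_nonneg_left hl (by positivity)
      _ = 16 * t ^ 3 := by ring
  have h10 : ((4 * P : ℕ) : ℝ) * log 2 = 4 * P * log 2 := by push_cast; ring
  rw [h10] at h2
  have h11 : 16 * t ^ 3 + 4 * t + 1 ≤ (38 / 100 : ℝ) * P := by
    rw [← ht4]
    have h12 : t ^ 3 * 50 ≤ t ^ 3 * t := mul_le_mul_of_nonneg_left ht50 (by positivity)
    have h13 : 4 * t + 1 ≤ t ^ 3 := by nlinarith
    nlinarith
  nlinarith

theorem sum_log_dvd (Q : Finset ℕ) (hQ : ∀ p ∈ Q, p.Prime) (D : ℤ) (hD : D ≠ 0) :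
    ∑ p ∈ Q.filter (fun p : ℕ => (p : ℤ) ∣ D), log (p : ℝ) ≤ log |(D : ℝ)| := by
  have h1 : ∏ p ∈ Q.filter (fun p : ℕ => (p : ℤ) ∣ D), p ∣ D.natAbs := by
    refine Finset.prod_primes_dvd _ ?_ ?_
    · intro p hp
      exact (hQ p (mem_filter.1 hp).1).prime
    · intro p hp
      exact Int.natCast_dvd.1 (mem_filter.1 hp).2
  have h2 := Nat.le_of_dvd (Int.natAbs_pos.2 hD) h1
  have hpos : ∀ p ∈ Q.filter (fun p : ℕ => (p : ℤ) ∣ D), (p : ℝ) ≠ 0 := by
    intro p hp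
    have := (hQ p (mem_filter.1 hp).1).pos
    exact_mod_cast this.ne'
  rw [← log_prod hpos]
  refine log_le_log ?_ ?_
  · refine prod_pos fun p hp => ?_
    have := (hQ p (mem_filter.1 hp).1).pos
    exact_mod_cast this
  · have h3 : (((∏ p ∈ Q.filter (fun p : ℕ => (p : ℤ) ∣ D), p : ℕ)) : ℝ) ≤ (D.natAbs : ℝ) := by
      exact_mod_cast h2
    rw [Nat.cast_prod] at h3
    rwa [Nat.cast_natAbs, Int.cast_abs] at h3

open Classical in
/-- the pairs of distinct elements with congruent images -/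
noncomputable def coll (S : Finset ℤ) (f : ℤ → ℤ) (p : ℕ) : Finset (ℤ × ℤ) :=
  (S ×ˢ S).filter fun w => w.1 ≠ w.2 ∧ (p : ℤ) ∣ f w.1 - f w.2

theorem exists_prime (S : Finset ℤ) (f : ℤ → ℤ) (hinj : Set.InjOn f S) (K : ℝ) (hK : 0 ≤ K)
    (hL : ∀ x ∈ S, ∀ y ∈ S, ((f x - f y : ℤ) : ℝ) ≤ exp K) (P : ℕ) (hP : 6250000 ≤ P) :
    ∃ p : ℕ, p.Prime ∧ P < p ∧ p ≤ 4 * P ∧
      ((coll S f p).card : ℝ) * P ≤ (S.card : ℝ) ^ 2 * K := by
  classical
  obtain ⟨Q, hQ⟩ : ∃ Q : Finset ℕ, Q = (Ioc P (4 * P)).filter Nat.Prime := ⟨_, rfl⟩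
  have hsum := prime_sum_ge P hP
  rw [← hQ] at hsum
  have hQp : ∀ p ∈ Q, p.Prime := by
    intro p hp
    rw [hQ] at hp
    exact (mem_filter.1 hp).2
  have hPpos : (0 : ℝ) < P := by
    have : (6250000 : ℝ) ≤ P := by exact_mod_cast hP
    linarith
  by_contra hcon
  push Not at hcon
  have h1 : ∀ p ∈ Q, (S.card : ℝ) ^ 2 * K < ((coll S f p).card : ℝ) * P := by
    intro p hp
    have hpp := hQp p hp
    rw [hQ, mem_filter, mem_Ioc] at hp
    exact hcon p hpp hp.1.1 hp.1.2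
  have hne : Q.Nonempty := by
    rw [nonempty_iff_ne_empty]
    intro h
    rw [h, sum_empty] at hsum
    linarith
  have hlog : ∀ p ∈ Q, 0 < log (p : ℝ) := by
    intro p hp
    refine log_pos ?_
    exact_mod_cast (hQp p hp).one_lt
  have h2 : (∑ p ∈ Q, log (p : ℝ)) * ((S.card : ℝ) ^ 2 * K) <
      ∑ p ∈ Q, log (p : ℝ) * (((coll S f p).card : ℝ) * P) := by
    rw [sum_mul]
    exact sum_lt_sum_of_nonempty hne fun p hp => mul_lt_mul_of_pos_left (h1 p hp) (hlog p hp)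
  have h3 : ∑ p ∈ Q, log (p : ℝ) * ((coll S f p).card : ℝ) ≤ (S.card : ℝ) ^ 2 * K := by
    have h4 : ∀ p : ℕ, log (p : ℝ) * ((coll S f p).card : ℝ) =
        ∑ w ∈ (S ×ˢ S).filter (fun w => w.1 ≠ w.2),
          if (p : ℤ) ∣ f w.1 - f w.2 then log (p : ℝ) else 0 := by
      intro p
      rw [← sum_filter, filter_filter, sum_const, nsmul_eq_mul, mul_comm]
      rfl
    simp_rw [h4]
    rw [sum_comm]
    have h5 : ∀ w ∈ (S ×ˢ S).filter (fun w => w.1 ≠ w.2),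
        ∑ p ∈ Q, (if (p : ℤ) ∣ f w.1 - f w.2 then log (p : ℝ) else 0) ≤ K := by
      intro w hw
      rw [mem_filter, mem_product] at hw
      obtain ⟨⟨hw1, hw2⟩, hne'⟩ := hw
      have hD : f w.1 - f w.2 ≠ 0 := by
        intro h
        exact hne' (hinj hw1 hw2 (by linarith))
      rw [← sum_filter]
      refine (sum_log_dvd Q hQp _ hD).trans ?_
      have h6 : |((f w.1 - f w.2 : ℤ) : ℝ)| ≤ exp K := by
        rw [abs_le]
        have a1 := hL _ hw1 _ hw2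
        have a2 := hL _ hw2 _ hw1
        push_cast at a1 a2 ⊢
        constructor <;> linarith
      have h7 : 0 < |((f w.1 - f w.2 : ℤ) : ℝ)| := by
        rw [abs_pos]
        exact_mod_cast hD
      have h8 := log_le_log h7 h6
      rwa [log_exp] at h8
    refine (sum_le_card_nsmul _ _ K h5).trans ?_
    rw [nsmul_eq_mul]
    refine mul_le_mul_of_nonneg_right ?_ hK
    have h6 : ((S ×ˢ S).filter (fun w => w.1 ≠ w.2)).card ≤ S.card ^ 2 := by
      refine (card_filter_le _ _).trans ?_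
      rw [card_product, sq]
    exact_mod_cast h6
  have h4 : ∑ p ∈ Q, log (p : ℝ) * (((coll S f p).card : ℝ) * P) =
      (∑ p ∈ Q, log (p : ℝ) * ((coll S f p).card : ℝ)) * P := by
    rw [sum_mul]
    refine sum_congr rfl fun p _ => ?_
    ring
  rw [h4] at h2
  have h5 : (∑ p ∈ Q, log (p : ℝ) * ((coll S f p).card : ℝ)) * P ≤
      ((S.card : ℝ) ^ 2 * K) * P := mul_le_mul_of_nonneg_right h3 hPpos.le
  have h6 : (P : ℝ) * ((S.card : ℝ) ^ 2 * K) ≤ (∑ p ∈ Q, log (p : ℝ)) * ((S.card : ℝ) ^ 2 * K) :=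
    mul_le_mul_of_nonneg_right hsum (by positivity)
  linarith

end Pool.Agent.MPbdcdc5.AA
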