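import Pool.Agent.Lib.MP_bdcdc5_co.AANear
import Pool.Agent.Lib.MP_bdcdc5_co.AAPrime

/-!
# Almost all scales: sets with a model in an interval of length `exp K`
-/

set_option autoImplicit false

namespace Pool.Agent.MPbdcdc5.AA

open Finset Real

/-- averaging over translates modulo `p` of an extremal subset of `{1, …, (p + 1) / 2}` -/
theorem transfer_mod {k : ℕ} (hk : 3 ≤ k) (S S' : Finset ℤ) (f : ℤ → ℤ) (hf : Pres S f)
    (hS : S' ⊆ S) (p : ℕ) (hp : 3 ≤ p)
    (hinj : ∀ x ∈ S', ∀ y ∈ S', x ≠ y → ¬ (p : ℤ) ∣ f x - f y) :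
    S'.card * Nb572fa8d.R k ((p + 1) / 2) ≤ p * r k S := by
  classical
  obtain ⟨A, hA, hAf, hAc⟩ := R_spec hk ((p + 1) / 2)
  have hA' : ∀ b ∈ A, 1 ≤ b ∧ 2 * b ≤ p + 1 := by
    intro b hb
    have := hA hb
    rw [mem_Icc] at this
    constructor
    · exact this.1
    · have h2 := this.2
      push_cast at h2
      omega
  have hp0 : (p : ℤ) ≠ 0 := by omega
  have hX : ∀ μ : ℕ, (S'.filter fun s => (f s + μ) % (p : ℤ) ∈ A).card ≤ r k S := by
    intro μ
    refine le_r hk ((filter_subset _ _).trans hS) ?_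
    refine free_pull hk hf ((filter_subset _ _).trans hS) (fun s => (f s + μ) % (p : ℤ)) A hAf
      ?_ ?_ ?_
    · intro x hx
      exact (mem_filter.1 hx).2
    · intro x hx y hy hxy h
      refine hinj x (mem_filter.1 hx).1 y (mem_filter.1 hy).1 hxy ?_
      have h1 : (p : ℤ) ∣ (f x + μ) - (f y + μ) :=
        Int.ModEq.dvd (show (f y + μ) ≡ (f x + μ) [ZMOD p] from h.symm)
      have h2 : (f x + μ) - (f y + μ) = f x - f y := by ring
      rwa [h2] at h1
    · intro x hx y hy z hz h
      have a1 := hA' _ (mem_filter.1 hx).2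
      have a2 := hA' _ (mem_filter.1 hy).2
      have a3 := hA' _ (mem_filter.1 hz).2
      have b1 := Int.emod_add_mul_ediv (f x + μ) p
      have b2 := Int.emod_add_mul_ediv (f y + μ) p
      have b3 := Int.emod_add_mul_ediv (f z + μ) p
      obtain ⟨u, hu⟩ : ∃ u, u = (f x + μ) % (p : ℤ) := ⟨_, rfl⟩
      obtain ⟨v, hv⟩ : ∃ v, v = (f y + μ) % (p : ℤ) := ⟨_, rfl⟩
      obtain ⟨w, hw⟩ : ∃ w, w = (f z + μ) % (p : ℤ) := ⟨_, rfl⟩
      rw [← hu] at a1 b1 ⊢
      rw [← hv] at a2 b2 ⊢
      rw [← hw] at a3 b3 ⊢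
      have h1 : u + w - 2 * v = (p : ℤ) * (2 * ((f y + μ) / p) - (f x + μ) / p - (f z + μ) / p) := by
        linarith
      obtain ⟨q, hq⟩ : ∃ q, q = 2 * ((f y + μ) / (p : ℤ)) - (f x + μ) / p - (f z + μ) / p :=
        ⟨_, rfl⟩
      rw [← hq] at h1
      have hq0 : q = 0 := by
        have hpz : (0 : ℤ) < p := by omega
        have h2 : -(p : ℤ) < (p : ℤ) * q := by rw [← h1]; omega
        have h3 : (p : ℤ) * q < p := by rw [← h1]; omega
        have h4 : -1 < q := by
          by_contra hcon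
          have : q ≤ -1 := by omega
          nlinarith
        have h5 : q < 1 := by
          by_contra hcon
          have : 1 ≤ q := by omega
          nlinarith
        omega
      rw [hq0, mul_zero] at h1
      linarith
  have hsum : ∑ μ ∈ range p, (S'.filter fun s => (f s + (μ : ℤ)) % (p : ℤ) ∈ A).card =
      S'.card * A.card := by
    have h1 : ∀ μ : ℕ, (S'.filter fun s => (f s + (μ : ℤ)) % (p : ℤ) ∈ A).card =
        ∑ s ∈ S', if (f s + (μ : ℤ)) % (p : ℤ) ∈ A then 1 else 0 := by
      intro μ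
      rw [card_filter]
    simp_rw [h1]
    rw [sum_comm, ← smul_eq_mul, ← sum_const]
    refine sum_congr rfl fun s _ => ?_
    rw [← card_filter]
    refine card_bij (fun μ _ => (f s + (μ : ℤ)) % (p : ℤ)) ?_ ?_ ?_
    · intro μ hμ
      exact (mem_filter.1 hμ).2
    · intro μ hμ μ' hμ' h
      rw [mem_filter, mem_range] at hμ hμ'
      have h2 : (p : ℤ) ∣ (f s + (μ' : ℤ)) - (f s + μ) :=
        Int.ModEq.dvd (show (f s + (μ : ℤ)) ≡ (f s + μ') [ZMOD p] from h)
      obtain ⟨q, hq⟩ := h2
      have h3 : (μ' : ℤ) - μ = p * q := by linarith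
      have hq0 : q = 0 := by
        have hpz : (0 : ℤ) < p := by omega
        have h4 : -(p : ℤ) < (p : ℤ) * q := by rw [← h3]; omega
        have h5 : (p : ℤ) * q < p := by rw [← h3]; omega
        have h6 : -1 < q := by
          by_contra hcon
          have : q ≤ -1 := by omega
          nlinarith
        have h7 : q < 1 := by
          by_contra hcon
          have : 1 ≤ q := by omega
          nlinarith
        omega
      rw [hq0, mul_zero] at h3
      omega
    · intro b hb
      obtain ⟨h2, h3⟩ := hA' b hb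
      have h4 := Int.emod_nonneg (b - f s) hp0
      have h5 := Int.emod_lt_of_pos (b - f s) (show (0 : ℤ) < p by omega)
      have h6 : (((b - f s) % (p : ℤ)).toNat : ℤ) = (b - f s) % (p : ℤ) := Int.toNat_of_nonneg h4
      have h7 : (f s + (((b - f s) % (p : ℤ)).toNat : ℤ)) % (p : ℤ) = b := by
        rw [h6, Int.add_emod, Int.emod_emod_of_dvd _ dvd_rfl, ← Int.add_emod]
        have : f s + (b - f s) = b := by ring
        rw [this]
        exact Int.emod_eq_of_lt (by omega) (by omega)
      refine ⟨((b - f s) % (p : ℤ)).toNat, ?_, h7⟩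
      rw [mem_filter, mem_range]
      refine ⟨by omega, ?_⟩
      rw [h7]
      exact hb
  rw [← hAc, ← hsum]
  refine (sum_le_card_nsmul _ _ _ fun μ _ => hX μ).trans ?_
  rw [card_range, smul_eq_mul]

end Pool.Agent.MPbdcdc5.AA
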