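import Pool.Agent.Lib.MP_bdcdc5_co.AAShort
import Pool.Agent.Lib.MP_bdcdc5_co.AATall

/-!
# Almost all scales: the two theorems
-/

set_option autoImplicit false

namespace Pool.Agent.MPbdcdc5.AA

open Finset Real

/-- `S` has a model in an interval of length `L`: an injective map `f` into the integers, whose values
on `S` differ by at most `L`, and which preserves the relations `x + z = 2 y` between elements of `S`
(so it maps progressions contained in `S` to progressions). -/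
def HasModel (S : Finset ℤ) (L : ℝ) : Prop :=
  ∃ f : ℤ → ℤ, Set.InjOn f S ∧
    (∀ x ∈ S, ∀ y ∈ S, ∀ z ∈ S, x + z = 2 * y → f x + f z = 2 * f y) ∧
    ∀ x ∈ S, ∀ y ∈ S, ((f x - f y : ℤ) : ℝ) ≤ L

theorem tall_scale {k : ℕ} (hk : 3 ≤ k) (ε K : ℝ) (hε : 0 < ε) (hε1 : ε ≤ 1 / 2) (hK : 1 ≤ K)
    (N : ℕ) (hN : 1 ≤ N) (hnd : ¬ Drop k ε ((2 / ε + 12500003) * K) N) (S : Finset ℤ)
    (hS : S.card = N) (f : ℤ → ℤ) (hf : Pres S f)
    (hL : ∀ x ∈ S, ∀ y ∈ S, ((f x - f y : ℤ) : ℝ) ≤ exp K) :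
    (1 / 2 - ε) * Nb572fa8d.R k N ≤ r k S := by
  classical
  have hN' : (1 : ℝ) ≤ N := by exact_mod_cast hN
  obtain ⟨P, hP⟩ : ∃ P : ℕ, P = ⌈(N : ℝ) * K / ε⌉₊ + 6250000 := ⟨_, rfl⟩
  have hP1 : (N : ℝ) * K / ε ≤ P := by
    rw [hP]
    push_cast
    have := Nat.le_ceil ((N : ℝ) * K / ε)
    linarith
  have hP2 : (P : ℝ) ≤ (N : ℝ) * K / ε + 1 + 6250000 := by
    rw [hP]
    push_cast
    have := (Nat.ceil_lt_add_one (show 0 ≤ (N : ℝ) * K / ε by positivity)).le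
    linarith
  have hPpos : (0 : ℝ) < P := by
    have : 0 < (N : ℝ) * K / ε := by positivity
    linarith
  obtain ⟨p, hpp, hPp, hp4, hcoll⟩ := exists_prime S f hf.1 K (by linarith) hL P (by omega)
  obtain ⟨M, hM⟩ : ∃ M : ℕ, M = (p + 1) / 2 := ⟨_, rfl⟩
  have hM1 : p ≤ 2 * M := by omega
  have hM2 : 2 * M ≤ p + 1 := by omega
  have hM1' : (p : ℝ) ≤ 2 * M := by exact_mod_cast hM1
  have hM2' : (2 : ℝ) * M ≤ p + 1 := by exact_mod_cast hM2
  have hPp' : (P : ℝ) + 1 ≤ p := by exact_mod_cast hPp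
  have hp4' : (p : ℝ) ≤ 4 * P := by exact_mod_cast hp4
  have hNP : 2 * (N : ℝ) ≤ P := by
    refine le_trans ?_ hP1
    rw [le_div_iff₀ hε]
    have h1 : 2 * (N : ℝ) * ε ≤ N := by nlinarith
    nlinarith
  have hNM : N ≤ M := by
    have : (N : ℝ) ≤ M := by linarith
    exact_mod_cast this
  have hMK : (M : ℝ) ≤ (2 / ε + 12500003) * K * N := by
    have h1 : (M : ℝ) ≤ 2 * ((N : ℝ) * K / ε) + 12500003 := by linarith
    have h2 : (12500003 : ℝ) ≤ 12500003 * (K * N) := by nlinarith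
    have h3 : 2 * ((N : ℝ) * K / ε) = 2 / ε * K * N := by ring
    calc (M : ℝ) ≤ 2 / ε * K * N + 12500003 * (K * N) := by linarith
      _ = _ := by ring
  have hMpos : (0 : ℝ) < M := by linarith
  have h1 : (1 - ε) * Nb572fa8d.R k N * M ≤ (Nb572fa8d.R k M : ℝ) * N := by
    by_contra hcon
    exact hnd ⟨M, hNM, hMK, not_le.1 hcon⟩
  -- the elements without collisions
  obtain ⟨S', hS'⟩ : ∃ S' : Finset ℤ,
      S' = S.filter fun s => ∀ t ∈ S, t ≠ s → ¬ (p : ℤ) ∣ f s - f t := ⟨_, rfl⟩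
  have hsub : S' ⊆ S := by
    rw [hS']
    exact filter_subset _ _
  have hcard : S.card ≤ S'.card + (coll S f p).card := by
    rw [← card_filter_add_card_filter_not (s := S)
      (fun s => ∀ t ∈ S, t ≠ s → ¬ (p : ℤ) ∣ f s - f t), ← hS']
    refine Nat.add_le_add_left ?_ _
    have h2 : S.filter (fun s => ¬ ∀ t ∈ S, t ≠ s → ¬ (p : ℤ) ∣ f s - f t) ⊆
        (coll S f p).image Prod.fst := by
      intro s hs
      rw [mem_filter] at hs
      obtain ⟨hsS, h3⟩ := hs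
      push Not at h3
      obtain ⟨t, ht, hts, hdvd⟩ := h3
      rw [mem_image]
      refine ⟨(s, t), ?_, rfl⟩
      rw [coll, mem_filter, mem_product]
      exact ⟨⟨hsS, ht⟩, hts.symm, hdvd⟩
    exact (card_le_card h2).trans card_image_le
  have hcoll' : ((coll S f p).card : ℝ) ≤ ε * N := by
    rw [hS] at hcoll
    have h2 : ((coll S f p).card : ℝ) * P ≤ (ε * N) * P := by
      refine hcoll.trans ?_
      have h3 : (N : ℝ) ^ 2 * K = (ε * N) * ((N : ℝ) * K / ε) := by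
        field_simp
      rw [h3]
      exact mul_le_mul_of_nonneg_left hP1 (by positivity)
    exact le_of_mul_le_mul_right h2 hPpos
  have hS'c : (1 - ε) * N ≤ (S'.card : ℝ) := by
    have h2 : (S.card : ℝ) ≤ (S'.card : ℝ) + ((coll S f p).card : ℝ) := by exact_mod_cast hcard
    rw [hS] at h2
    linarith
  have h2 := transfer_mod hk S S' f hf hsub p (by omega) (by
    intro x hx y hy hxy
    rw [hS', mem_filter] at hx
    exact hx.2 y (hsub hy) (Ne.symm hxy))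
  rw [← hM] at h2
  have h3 : (S'.card : ℝ) * Nb572fa8d.R k M ≤ p * r k S := by exact_mod_cast h2
  have hRM0 : (0 : ℝ) ≤ Nb572fa8d.R k M := Nat.cast_nonneg _
  have hRN0 : (0 : ℝ) ≤ Nb572fa8d.R k N := Nat.cast_nonneg _
  have hr0 : (0 : ℝ) ≤ r k S := Nat.cast_nonneg _
  have h4 : (1 - ε) * ((1 - ε) * Nb572fa8d.R k N * M) ≤ 2 * M * r k S := by
    calc (1 - ε) * ((1 - ε) * Nb572fa8d.R k N * M) ≤ (1 - ε) * ((Nb572fa8d.R k M : ℝ) * N) :=
          mul_le_mul_of_nonneg_left h1 (by linarith)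
      _ = ((1 - ε) * N) * Nb572fa8d.R k M := by ring
      _ ≤ (S'.card : ℝ) * Nb572fa8d.R k M := mul_le_mul_of_nonneg_right hS'c hRM0
      _ ≤ p * r k S := h3
      _ ≤ 2 * M * r k S := mul_le_mul_of_nonneg_right hM1' hr0
  have h5 : ((1 - ε) ^ 2 * Nb572fa8d.R k N) * M ≤ (2 * r k S) * M := by
    calc ((1 - ε) ^ 2 * Nb572fa8d.R k N) * M = (1 - ε) * ((1 - ε) * Nb572fa8d.R k N * M) := by ring
      _ ≤ 2 * M * r k S := h4
      _ = _ := by ring
  have h6 : (1 - ε) ^ 2 * Nb572fa8d.R k N ≤ 2 * r k S := le_of_mul_le_mul_right h5 hMpos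
  have h7 : (1 - 2 * ε) * Nb572fa8d.R k N ≤ (1 - ε) ^ 2 * Nb572fa8d.R k N :=
    mul_le_mul_of_nonneg_right (by nlinarith) hRN0
  linarith

open Classical in
theorem short_main (ε : ℝ) (hε : 0 < ε) :
    ∃ C : ℝ, 0 < C ∧ ∀ k : ℕ, 3 ≤ k → ∀ K : ℝ, 1 ≤ K → ∀ X : ℕ, 2 ≤ X →
      ∑ N ∈ (Icc 1 X).filter (fun N : ℕ => ∃ S : Finset ℤ, S.card = N ∧ HasModel S (K * N) ∧
        (S.maxAPFreeCard k : ℝ) < (1 - ε) * Nb572fa8d.R k N), (1 : ℝ) / N ≤
      C * (1 + log K) * √(log X) := by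
  rcases lt_or_ge ε 1 with hε1 | hε1
  · obtain ⟨C, hC, h⟩ := drop_sum (ε / 3) (by positivity) (by linarith)
    obtain ⟨T, hT⟩ := exists_nat_ge (3 / ε)
    have hT1 : 1 ≤ T := by
      have h1 : (0 : ℝ) < 3 / ε := by positivity
      have h2 : (0 : ℝ) < T := h1.trans_le hT
      exact_mod_cast h2
    have hT' : (1 : ℝ) ≤ T := by exact_mod_cast hT1
    have hlT : 0 ≤ log (2 * (T : ℝ)) := log_nonneg (by linarith)
    refine ⟨C * (1 + log (2 * T)), by positivity, ?_⟩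
    intro k hk K hK X hX
    have hlK : 0 ≤ log K := log_nonneg hK
    have h1 := h k hk (2 * T * K) (by nlinarith) X hX
    refine le_trans (sum_le_sum_of_subset_of_nonneg ?_ fun _ _ _ => by positivity) (h1.trans ?_)
    · intro N hN
      rw [mem_filter, mem_Icc] at hN ⊢
      obtain ⟨hN1, S, hS, ⟨f, hinj, hrel, hL⟩, hlt⟩ := hN
      refine ⟨hN1, ?_⟩
      by_contra hnd
      have h2 := short_scale hk ε K hε hε1 hK T hT hT1 N hN1.1 hnd S hS f ⟨hinj, hrel⟩ hL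
      exact absurd hlt (not_lt.2 h2)
    · have h2 : log (2 * T * K) = log (2 * T) + log K := log_mul (by positivity) (by linarith)
      rw [h2]
      refine mul_le_mul_of_nonneg_right ?_ (sqrt_nonneg _)
      rw [mul_assoc]
      refine mul_le_mul_of_nonneg_left ?_ hC.le
      nlinarith [mul_nonneg hlT hlK]
  · refine ⟨1, one_pos, ?_⟩
    intro k hk K hK X hX
    have h1 : (Icc 1 X).filter (fun N : ℕ => ∃ S : Finset ℤ, S.card = N ∧ HasModel S (K * N) ∧
        (S.maxAPFreeCard k : ℝ) < (1 - ε) * Nb572fa8d.R k N) = ∅ := by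
      rw [filter_eq_empty_iff]
      rintro N _ ⟨S, _, _, hlt⟩
      have h2 : (0 : ℝ) ≤ Nb572fa8d.R k N := Nat.cast_nonneg _
      have h3 : (0 : ℝ) ≤ (S.maxAPFreeCard k : ℝ) := Nat.cast_nonneg _
      have h4 : (1 - ε) * Nb572fa8d.R k N ≤ 0 :=
        mul_nonpos_of_nonpos_of_nonneg (by linarith) h2
      linarith
    rw [h1, sum_empty]
    have := log_nonneg hK
    positivity

open Classical in
theorem tall_main (ε : ℝ) (hε : 0 < ε) :
    ∃ C : ℝ, 0 < C ∧ ∀ k : ℕ, 3 ≤ k → ∀ K : ℝ, 1 ≤ K → ∀ X : ℕ, 2 ≤ X →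
      ∑ N ∈ (Icc 1 X).filter (fun N : ℕ => ∃ S : Finset ℤ, S.card = N ∧ HasModel S (exp K) ∧
        (S.maxAPFreeCard k : ℝ) < (1 / 2 - ε) * Nb572fa8d.R k N), (1 : ℝ) / N ≤
      C * (1 + log K) * √(log X) := by
  rcases le_or_gt ε (1 / 2) with hε1 | hε1
  · obtain ⟨C, hC, h⟩ := drop_sum ε hε (by linarith)
    obtain ⟨c, hc⟩ : ∃ c : ℝ, c = 2 / ε + 12500003 := ⟨_, rfl⟩
    have hc1 : 1 ≤ c := by
      have : 0 < 2 / ε := by positivity
      linarith
    have hlc : 0 ≤ log c := log_nonneg hc1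
    refine ⟨C * (1 + log c), by positivity, ?_⟩
    intro k hk K hK X hX
    have hlK : 0 ≤ log K := log_nonneg hK
    have h1 := h k hk (c * K) (by nlinarith) X hX
    refine le_trans (sum_le_sum_of_subset_of_nonneg ?_ fun _ _ _ => by positivity) (h1.trans ?_)
    · intro N hN
      rw [mem_filter, mem_Icc] at hN ⊢
      obtain ⟨hN1, S, hS, ⟨f, hinj, hrel, hL⟩, hlt⟩ := hN
      refine ⟨hN1, ?_⟩
      by_contra hnd
      rw [hc] at hnd
      have h2 := tall_scale hk ε K hε hε1 hK N hN1.1 hnd S hS f ⟨hinj, hrel⟩ hL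
      exact absurd hlt (not_lt.2 h2)
    · have h2 : log (c * K) = log c + log K := log_mul (by positivity) (by linarith)
      rw [h2]
      refine mul_le_mul_of_nonneg_right ?_ (sqrt_nonneg _)
      rw [mul_assoc]
      refine mul_le_mul_of_nonneg_left ?_ hC.le
      nlinarith [mul_nonneg hlc hlK]
  · refine ⟨1, one_pos, ?_⟩
    intro k hk K hK X hX
    have h1 : (Icc 1 X).filter (fun N : ℕ => ∃ S : Finset ℤ, S.card = N ∧ HasModel S (exp K) ∧
        (S.maxAPFreeCard k : ℝ) < (1 / 2 - ε) * Nb572fa8d.R k N) = ∅ := by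
      rw [filter_eq_empty_iff]
      rintro N _ ⟨S, _, _, hlt⟩
      have h2 : (0 : ℝ) ≤ Nb572fa8d.R k N := Nat.cast_nonneg _
      have h3 : (0 : ℝ) ≤ (S.maxAPFreeCard k : ℝ) := Nat.cast_nonneg _
      have h4 : (1 / 2 - ε) * Nb572fa8d.R k N ≤ 0 :=
        mul_nonpos_of_nonpos_of_nonneg (by linarith) h2
      linarith
    rw [h1, sum_empty]
    have := log_nonneg hK
    positivity

end Pool.Agent.MPbdcdc5.AA
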