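import Pool.Agent.Lib.MP_bdcdc5_co.AAbasic

/-!
# Almost all scales: `R k N / N` rarely drops

Let `N` be called bad if `R(M) / M < (1 - ε) R(N) / N` for some `M` in `[N, K N]`. Cover the bad
numbers up to `X` greedily by intervals `[N_j, κ M_j)`: along the sequence `R(N_j) / N_j` decreases
by the factor `1 - ε/2`, and by Behrend's bound it stays above `exp (-4 √(log X))`, so there are
`O(√(log X))` intervals, each of logarithmic length at most `1 + log (κ K)`.
-/

set_option autoImplicit false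

namespace Pool.Agent.MPbdcdc5.AA

open Finset Real

/-- scales `N` such that `R M / M < (1 - ε) R N / N` for some `M` between `N` and `K N` -/
def Drop (k : ℕ) (ε K : ℝ) (N : ℕ) : Prop :=
  ∃ M : ℕ, N ≤ M ∧ (M : ℝ) ≤ K * N ∧
    (Nb572fa8d.R k M : ℝ) * N < (1 - ε) * Nb572fa8d.R k N * M

theorem sum_inv_succ (a b : ℕ) (ha : 1 ≤ a) (hab : a ≤ b) :
    ∑ N ∈ Ico a (b + 1), (1 : ℝ) / N ≤ 1 / a + log ((b : ℝ) / a) := by
  have ha' : (0 : ℝ) < a := by exact_mod_cast ha
  induction b, hab using Nat.le_induction with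
  | base =>
    rw [Nat.Ico_succ_singleton, sum_singleton, div_self ha'.ne', log_one, add_zero]
  | succ b hb ih =>
    have hb' : (0 : ℝ) < b := by exact_mod_cast (lt_of_lt_of_le ha hb)
    rw [sum_Ico_succ_top (by omega)]
    have h1 : (1 : ℝ) / ((b + 1 : ℕ) : ℝ) ≤ log (((b + 1 : ℕ) : ℝ) / a) - log ((b : ℝ) / a) := by
      rw [log_div (by positivity) ha'.ne', log_div hb'.ne' ha'.ne']
      have h2 : log ((b : ℝ) / ((b + 1 : ℕ) : ℝ)) ≤ (b : ℝ) / ((b + 1 : ℕ) : ℝ) - 1 :=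
        log_le_sub_one_of_pos (by positivity)
      rw [log_div hb'.ne' (by positivity)] at h2
      have h3 : (b : ℝ) / ((b + 1 : ℕ) : ℝ) - 1 = -(1 / ((b + 1 : ℕ) : ℝ)) := by
        push_cast
        field_simp
        ring
      rw [h3] at h2
      linarith
    linarith

theorem sum_inv_le (a b : ℕ) (ha : 1 ≤ a) (hab : a ≤ b) :
    ∑ N ∈ Ico a b, (1 : ℝ) / N ≤ 1 + log ((b : ℝ) / a) := by
  have ha' : (1 : ℝ) ≤ a := by exact_mod_cast ha
  have h1 : ∑ N ∈ Ico a b, (1 : ℝ) / N ≤ ∑ N ∈ Ico a (b + 1), (1 : ℝ) / N := by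
    refine sum_le_sum_of_subset_of_nonneg ?_ ?_
    · intro x hx
      rw [mem_Ico] at hx ⊢
      omega
    · intro x _ _
      positivity
  have h2 : (1 : ℝ) / a ≤ 1 := by
    rw [div_le_one (by linarith)]
    exact ha'
  linarith [sum_inv_succ a b ha hab]

open Classical in
theorem drop_claim {k : ℕ} (hk : 3 ≤ k) (ε K : ℝ) (hε : 0 < ε) (hε1 : ε ≤ 1) (hK : 1 ≤ K)
    (X κ : ℕ) (hκ : 2 / ε ≤ κ) (hκ1 : 1 ≤ κ) (j : ℕ) :
    ∀ n : ℕ, 1 ≤ n →
      (∀ N, n ≤ N → N ≤ X → Drop k ε K N →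
        (Nb572fa8d.R k N : ℝ) * (1 - ε / 2) ^ j < N * exp (-4 * √(log X))) →
      ∑ N ∈ (Icc n X).filter (Drop k ε K), (1 : ℝ) / N ≤ j * (1 + log (κ * K)) := by
  have hκ' : (1 : ℝ) ≤ κ := by exact_mod_cast hκ1
  have hρ : (0 : ℝ) < 1 - ε / 2 := by linarith
  have hW : 0 ≤ 1 + log (κ * K) := by
    have : (1 : ℝ) ≤ κ * K := by nlinarith
    linarith [log_nonneg this]
  induction j with
  | zero =>
    intro n hn h
    have h1 : (Icc n X).filter (Drop k ε K) = ∅ := by
      rw [filter_eq_empty_iff]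
      intro N hN hD
      rw [mem_Icc] at hN
      have h2 := h N hN.1 hN.2 hD
      rw [pow_zero, mul_one] at h2
      have h3 := R_behrend hk N
      have hN1 : (1 : ℝ) ≤ N := by exact_mod_cast hn.trans hN.1
      have hNX : (N : ℝ) ≤ X := by exact_mod_cast hN.2
      have h4 : √(log N) ≤ √(log X) := sqrt_le_sqrt (log_le_log (by linarith) hNX)
      have h5 : exp (-4 * √(log X)) ≤ exp (-4 * √(log N)) := exp_le_exp.2 (by linarith)
      have h6 : (N : ℝ) * exp (-4 * √(log X)) ≤ N * exp (-4 * √(log N)) :=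
        mul_le_mul_of_nonneg_left h5 (by linarith)
      linarith
    rw [h1, sum_empty]
    simp
  | succ j ih =>
    intro n hn h
    rcases ((Icc n X).filter (Drop k ε K)).eq_empty_or_nonempty with he | hne
    · rw [he, sum_empty]
      positivity
    · obtain ⟨N1, hN1, hmin⟩ := exists_min_image _ (fun N : ℕ => N) hne
      rw [mem_filter, mem_Icc] at hN1
      obtain ⟨⟨hnN1, hN1X⟩, hD1⟩ := hN1
      have hD1' := hD1
      obtain ⟨M1, hNM, hMK, hdrop⟩ := hD1'
      have hN1pos : (0 : ℝ) < N1 := by exact_mod_cast (lt_of_lt_of_le hn hnN1)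
      have hM1pos : (0 : ℝ) < M1 := by exact_mod_cast (lt_of_lt_of_le (lt_of_lt_of_le hn hnN1) hNM)
      have hstep : ∀ N, κ * M1 ≤ N → N ≤ X → Drop k ε K N →
          (Nb572fa8d.R k N : ℝ) * (1 - ε / 2) ^ j < N * exp (-4 * √(log X)) := by
        intro N hN hNX hD
        have hNr : (κ : ℝ) * M1 ≤ N := by exact_mod_cast hN
        have hNpos : (0 : ℝ) < N := by nlinarith
        have h1 := R_ratio hk (M := N) (N := M1) (by exact_mod_cast hM1pos)
        have h2 := h N1 hnN1 hN1X hD1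
        have hR1 : (0 : ℝ) ≤ Nb572fa8d.R k N1 := Nat.cast_nonneg _
        -- M1 ≤ (ε/2) N
        have h3 : (M1 : ℝ) ≤ ε / 2 * N := by
          have h4 : 2 / ε * M1 ≤ N := (mul_le_mul_of_nonneg_right hκ hM1pos.le).trans hNr
          have h5 : (M1 : ℝ) = ε / 2 * (2 / ε * M1) := by
            field_simp
          rw [h5]
          exact mul_le_mul_of_nonneg_left h4 (by positivity)
        have h4 : (Nb572fa8d.R k N : ℝ) * N1 * M1 < ((N + M1) * ((1 - ε) * Nb572fa8d.R k N1)) * M1 := by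
          calc (Nb572fa8d.R k N : ℝ) * N1 * M1 = (Nb572fa8d.R k N * M1) * N1 := by ring
            _ ≤ ((N + M1) * Nb572fa8d.R k M1) * N1 := mul_le_mul_of_nonneg_right h1 hN1pos.le
            _ = (N + M1) * (Nb572fa8d.R k M1 * N1) := by ring
            _ < (N + M1) * ((1 - ε) * Nb572fa8d.R k N1 * M1) :=
                mul_lt_mul_of_pos_left hdrop (by positivity)
            _ = _ := by ring
        have h5 : (Nb572fa8d.R k N : ℝ) * N1 < (N + M1) * ((1 - ε) * Nb572fa8d.R k N1) :=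
          lt_of_mul_lt_mul_right h4 hM1pos.le
        have h6 : (N + M1) * ((1 - ε) * Nb572fa8d.R k N1) ≤
            (N : ℝ) * ((1 - ε / 2) * Nb572fa8d.R k N1) := by
          have h7 : ((N : ℝ) + M1) * (1 - ε) ≤ N * (1 - ε / 2) := by
            have h8 : ((N : ℝ) + M1) * (1 - ε) ≤ (N + ε / 2 * N) * (1 - ε) :=
              mul_le_mul_of_nonneg_right (by linarith) (by linarith)
            have h9 : ((N : ℝ) + ε / 2 * N) * (1 - ε) = N * (1 - ε / 2) - N * (ε ^ 2 / 2) := by ring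
            have h10 : 0 ≤ (N : ℝ) * (ε ^ 2 / 2) := by positivity
            linarith
          calc (N + M1) * ((1 - ε) * Nb572fa8d.R k N1) =
                (((N : ℝ) + M1) * (1 - ε)) * Nb572fa8d.R k N1 := by ring
            _ ≤ (N * (1 - ε / 2)) * Nb572fa8d.R k N1 := mul_le_mul_of_nonneg_right h7 hR1
            _ = _ := by ring
        have h7 : (Nb572fa8d.R k N : ℝ) * N1 < N * ((1 - ε / 2) * Nb572fa8d.R k N1) :=
          h5.trans_le h6
        have h8 : (Nb572fa8d.R k N : ℝ) * (1 - ε / 2) ^ j * N1 <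
            (N * exp (-4 * √(log X))) * N1 := by
          calc (Nb572fa8d.R k N : ℝ) * (1 - ε / 2) ^ j * N1 =
                (Nb572fa8d.R k N * N1) * (1 - ε / 2) ^ j := by ring
            _ < (N * ((1 - ε / 2) * Nb572fa8d.R k N1)) * (1 - ε / 2) ^ j :=
                mul_lt_mul_of_pos_right h7 (by positivity)
            _ = N * (Nb572fa8d.R k N1 * (1 - ε / 2) ^ (j + 1)) := by ring
            _ < N * (N1 * exp (-4 * √(log X))) := mul_lt_mul_of_pos_left h2 hNpos
            _ = _ := by ring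
        exact lt_of_mul_lt_mul_right h8 hN1pos.le
      have hn' : 1 ≤ κ * M1 := Nat.mul_pos hκ1 (by exact_mod_cast hM1pos)
      have hrec := ih (κ * M1) hn' hstep
      have hsub : (Icc n X).filter (Drop k ε K) ⊆
          Ico N1 (κ * M1) ∪ (Icc (κ * M1) X).filter (Drop k ε K) := by
        intro N hN
        have h1 := hmin N hN
        rw [mem_filter, mem_Icc] at hN
        rw [mem_union, mem_Ico, mem_filter, mem_Icc]
        by_cases hc : N < κ * M1
        · exact Or.inl ⟨h1, hc⟩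
        · exact Or.inr ⟨⟨by omega, hN.1.2⟩, hN.2⟩
      have hle : N1 ≤ κ * M1 := hNM.trans (Nat.le_mul_of_pos_left _ hκ1)
      have hfirst : ∑ N ∈ Ico N1 (κ * M1), (1 : ℝ) / N ≤ 1 + log (κ * K) := by
        refine (sum_inv_le N1 (κ * M1) (hn.trans hnN1) hle).trans ?_
        have h1 : (((κ * M1 : ℕ) : ℝ) / N1) ≤ κ * K := by
          rw [div_le_iff₀ hN1pos]
          push_cast
          calc (κ : ℝ) * M1 ≤ κ * (K * N1) := mul_le_mul_of_nonneg_left hMK (by linarith)
            _ = κ * K * N1 := by ring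
        have h2 : 0 < (((κ * M1 : ℕ) : ℝ) / N1) := by
          push_cast
          positivity
        linarith [log_le_log h2 h1]
      calc ∑ N ∈ (Icc n X).filter (Drop k ε K), (1 : ℝ) / N
          ≤ ∑ N ∈ Ico N1 (κ * M1) ∪ (Icc (κ * M1) X).filter (Drop k ε K), (1 : ℝ) / N :=
            sum_le_sum_of_subset_of_nonneg hsub fun _ _ _ => by positivity
        _ ≤ ∑ N ∈ Ico N1 (κ * M1), (1 : ℝ) / N +
            ∑ N ∈ (Icc (κ * M1) X).filter (Drop k ε K), (1 : ℝ) / N := by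
            rw [← sum_union_inter]
            have : 0 ≤ ∑ N ∈ Ico N1 (κ * M1) ∩ (Icc (κ * M1) X).filter (Drop k ε K),
                (1 : ℝ) / N := sum_nonneg fun _ _ => by positivity
            linarith
        _ ≤ (1 + log (κ * K)) + j * (1 + log (κ * K)) := add_le_add hfirst hrec
        _ = ((j + 1 : ℕ) : ℝ) * (1 + log (κ * K)) := by
            push_cast
            ring

open Classical in
/-- The bad scales have logarithmic measure `O((1 + log K) √(log X))`. -/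
theorem drop_sum (ε : ℝ) (hε : 0 < ε) (hε1 : ε ≤ 1) :
    ∃ C : ℝ, 0 < C ∧ ∀ k : ℕ, 3 ≤ k → ∀ K : ℝ, 1 ≤ K → ∀ X : ℕ, 2 ≤ X →
      ∑ N ∈ (Icc 1 X).filter (Drop k ε K), (1 : ℝ) / N ≤ C * (1 + log K) * √(log X) := by
  obtain ⟨κ, hκ⟩ := exists_nat_ge (2 / ε)
  have hκ1 : 1 ≤ κ := by
    have h1 : (0 : ℝ) < 2 / ε := by positivity
    have h2 : (0 : ℝ) < κ := h1.trans_le hκ
    exact_mod_cast h2
  have hκ' : (1 : ℝ) ≤ κ := by exact_mod_cast hκ1
  have hρ : (0 : ℝ) < 1 - ε / 2 := by linarith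
  have hρ1 : 1 - ε / 2 < 1 := by linarith
  have hlρ : log (1 - ε / 2) < 0 := log_neg hρ hρ1
  have hlκ : 0 ≤ log (κ : ℝ) := log_nonneg hκ'
  obtain ⟨l, hl⟩ : ∃ l : ℝ, l = -log (1 - ε / 2) := ⟨_, rfl⟩
  have hl0 : 0 < l := by rw [hl]; linarith
  refine ⟨(4 / l + 2) * (1 + log κ), by positivity, ?_⟩
  intro k hk K hK X hX
  have hlK : 0 ≤ log K := log_nonneg hK
  have hX' : (2 : ℝ) ≤ X := by exact_mod_cast hX
  have hlX : (1 / 4 : ℝ) ≤ log X := by
    have h1 := log_le_log (by norm_num : (0 : ℝ) < 2) hX'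
    have h2 := log_two_gt_d9
    linarith
  have hs : (1 / 2 : ℝ) ≤ √(log X) := by
    have h1 : √(1 / 4 : ℝ) ≤ √(log X) := sqrt_le_sqrt hlX
    have h2 : √(1 / 4 : ℝ) = 1 / 2 := by
      rw [show (1 / 4 : ℝ) = (1 / 2) ^ 2 by norm_num]
      exact sqrt_sq (by norm_num)
    linarith
  obtain ⟨J, hJ⟩ : ∃ J : ℕ, J = ⌊4 * √(log X) / l⌋₊ + 1 := ⟨_, rfl⟩
  have hJ1 : 4 * √(log X) / l < J := by
    rw [hJ]
    push_cast
    exact Nat.lt_floor_add_one _
  have hJ2 : (J : ℝ) ≤ 4 * √(log X) / l + 1 := by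
    rw [hJ]
    push_cast
    have := Nat.floor_le (show 0 ≤ 4 * √(log X) / l by positivity)
    linarith
  have hclaim := drop_claim hk ε K hε hε1 hK X κ hκ hκ1 J 1 le_rfl (by
    intro N hN hNX _
    have hN' : (0 : ℝ) < N := by exact_mod_cast hN
    have h1 : (Nb572fa8d.R k N : ℝ) ≤ N := by exact_mod_cast R_le hk N
    have h2 : (1 - ε / 2) ^ J < exp (-4 * √(log X)) := by
      have h3 : (1 - ε / 2) ^ J = exp (-(l * J)) := by
        rw [hl, neg_mul, neg_neg, mul_comm, exp_nat_mul, exp_log hρ]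
      rw [h3]
      refine exp_lt_exp.2 ?_
      rw [div_lt_iff₀ hl0] at hJ1
      linarith
    calc (Nb572fa8d.R k N : ℝ) * (1 - ε / 2) ^ J ≤ N * (1 - ε / 2) ^ J :=
          mul_le_mul_of_nonneg_right h1 (by positivity)
      _ < N * exp (-4 * √(log X)) := mul_lt_mul_of_pos_left h2 hN')
  refine hclaim.trans ?_
  have h1 : log ((κ : ℝ) * K) = log κ + log K := log_mul (by linarith) (by linarith)
  have h2 : 1 + log ((κ : ℝ) * K) ≤ (1 + log κ) * (1 + log K) := by
    rw [h1]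
    nlinarith [mul_nonneg hlκ hlK]
  have h3 : (J : ℝ) ≤ (4 / l + 2) * √(log X) := by
    have : 4 * √(log X) / l = 4 / l * √(log X) := by ring
    rw [this] at hJ2
    nlinarith
  have h4 : 0 ≤ 1 + log ((κ : ℝ) * K) := by
    rw [h1]
    positivity
  calc (J : ℝ) * (1 + log (κ * K)) ≤ ((4 / l + 2) * √(log X)) * (1 + log (κ * K)) :=
        mul_le_mul_of_nonneg_right h3 h4
    _ ≤ ((4 / l + 2) * √(log X)) * ((1 + log κ) * (1 + log K)) :=
        mul_le_mul_of_nonneg_left h2 (by positivity)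
    _ = _ := by ring

end Pool.Agent.MPbdcdc5.AA
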