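import Pool.Agent.Lib.MP_bdcdc5_co.AANear

/-!
# Almost all scales: sets with a model in a short interval
-/

set_option autoImplicit false

namespace Pool.Agent.MPbdcdc5.AA

open Finset Real

/-- At a scale which is not bad, every set of `N` integers which has a model in an interval of length
`K N` has a progression-free subset of size at least `(1 - ε) R k N`. -/
theorem short_scale {k : ℕ} (hk : 3 ≤ k) (ε K : ℝ) (hε : 0 < ε) (hε1 : ε < 1) (hK : 1 ≤ K)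
    (T : ℕ) (hT : 3 / ε ≤ T) (hT1 : 1 ≤ T) (N : ℕ) (hN : 1 ≤ N)
    (hnd : ¬ Drop k (ε / 3) (2 * T * K) N) (S : Finset ℤ) (hS : S.card = N) (f : ℤ → ℤ)
    (hf : Pres S f) (hL : ∀ x ∈ S, ∀ y ∈ S, ((f x - f y : ℤ) : ℝ) ≤ K * N) :
    (1 - ε) * Nb572fa8d.R k N ≤ r k S := by
  have hN' : (1 : ℝ) ≤ N := by exact_mod_cast hN
  have hT' : (1 : ℝ) ≤ T := by exact_mod_cast hT1
  have hKN0 : 0 ≤ K * N := by positivity
  obtain ⟨L, hLd⟩ : ∃ L : ℕ, L = ⌊K * N⌋₊ := ⟨_, rfl⟩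
  have hL1 : (L : ℝ) ≤ K * N := by
    rw [hLd]
    exact Nat.floor_le hKN0
  have hL2 : K * N < L + 1 := by
    rw [hLd]
    exact Nat.lt_floor_add_one _
  have hL3 : ∀ x ∈ S, ∀ y ∈ S, f x - f y ≤ L := by
    intro x hx y hy
    have h1 := hL x hx y hy
    have h2 : ((f x - f y : ℤ) : ℝ) < ((L + 1 : ℤ) : ℝ) := by
      push_cast at h1 ⊢
      linarith
    have h3 : f x - f y < L + 1 := by exact_mod_cast h2
    omega
  have hNL : (N : ℝ) < L + 1 := by nlinarith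
  have hNL' : N ≤ L := by
    have : N < L + 1 := by exact_mod_cast hNL
    omega
  obtain ⟨M, hM⟩ : ∃ M : ℕ, M = T * (L + 1) := ⟨_, rfl⟩
  have hMr : (M : ℝ) = T * (L + 1) := by rw [hM]; push_cast; ring
  have hNM : N ≤ M := by
    rw [hM]
    calc N ≤ 1 * (L + 1) := by omega
      _ ≤ T * (L + 1) := Nat.mul_le_mul_right _ hT1
  have hMK : (M : ℝ) ≤ 2 * T * K * N := by
    rw [hMr]
    have h1 : (L : ℝ) + 1 ≤ 2 * (K * N) := by nlinarith
    calc (T : ℝ) * (L + 1) ≤ T * (2 * (K * N)) := mul_le_mul_of_nonneg_left h1 (by linarith)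
      _ = _ := by ring
  have hMpos : (0 : ℝ) < M := by
    rw [hMr]
    positivity
  have h1 : (1 - ε / 3) * Nb572fa8d.R k N * M ≤ (Nb572fa8d.R k M : ℝ) * N := by
    by_contra hcon
    exact hnd ⟨M, hNM, hMK, not_le.1 hcon⟩
  have h2 := transfer hk S f hf L hL3 M
  rw [hS] at h2
  have h3 : (N : ℝ) * Nb572fa8d.R k M ≤ (M + L) * r k S := by exact_mod_cast h2
  have h4 : (L : ℝ) ≤ ε / 3 * M := by
    rw [hMr]
    rw [div_le_iff₀ hε] at hT
    have h5 : (L : ℝ) + 1 ≤ ε / 3 * T * (L + 1) := by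
      have h6 : (1 : ℝ) ≤ ε / 3 * T := by linarith
      nlinarith
    linarith
  have hr0 : (0 : ℝ) ≤ r k S := Nat.cast_nonneg _
  have h5 : ((M : ℝ) + L) * r k S ≤ ((1 + ε / 3) * M) * r k S :=
    mul_le_mul_of_nonneg_right (by linarith) hr0
  have h6 : ((1 - ε / 3) * Nb572fa8d.R k N) * M ≤ ((1 + ε / 3) * r k S) * M := by
    calc ((1 - ε / 3) * Nb572fa8d.R k N) * M ≤ (Nb572fa8d.R k M : ℝ) * N := h1
      _ = N * Nb572fa8d.R k M := by ring
      _ ≤ (M + L) * r k S := h3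
      _ ≤ ((1 + ε / 3) * M) * r k S := h5
      _ = _ := by ring
  have h7 : (1 - ε / 3) * Nb572fa8d.R k N ≤ (1 + ε / 3) * r k S :=
    le_of_mul_le_mul_right h6 hMpos
  have hR0 : (0 : ℝ) ≤ Nb572fa8d.R k N := Nat.cast_nonneg _
  have h8 : (1 + ε / 3) * ((1 - ε) * Nb572fa8d.R k N) ≤ (1 - ε / 3) * Nb572fa8d.R k N := by
    have h9 : (1 + ε / 3) * (1 - ε) ≤ 1 - ε / 3 := by nlinarith
    calc (1 + ε / 3) * ((1 - ε) * Nb572fa8d.R k N) = ((1 + ε / 3) * (1 - ε)) * Nb572fa8d.R k N := by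
          ring
      _ ≤ _ := mul_le_mul_of_nonneg_right h9 hR0
  have h10 : (1 + ε / 3) * ((1 - ε) * Nb572fa8d.R k N) ≤ (1 + ε / 3) * r k S := h8.trans h7
  exact le_of_mul_le_mul_left h10 (by positivity)

end Pool.Agent.MPbdcdc5.AA
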