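import Pool.Agent.Lib.MP_bdcdc5_co.Main

/-!
# Almost all scales: basic facts on `R k N` and transfer along maps that preserve 3-term relations
-/

set_option autoImplicit false

namespace Pool.Agent.MPbdcdc5.AA

open Finset Real

/-- no `k`-term progression in `T` -/
def Free (k : ℕ) (T : Finset ℤ) : Prop := ∀ a d : ℤ, 0 < d → ∃ j < k, a + j * d ∉ T

theorem Free.mono {k : ℕ} {T T' : Finset ℤ} (h : Free k T) (hT : T' ⊆ T) : Free k T' := by
  intro a d hd
  obtain ⟨j, hj, hn⟩ := h a d hd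
  exact ⟨j, hj, fun hh => hn (hT hh)⟩

theorem Free.ne {k : ℕ} (hk : 3 ≤ k) {T : Finset ℤ} (h : Free k T) (a d : ℤ) (hd : d ≠ 0) :
    ∃ j < k, a + j * d ∉ T := by
  rcases lt_or_gt_of_ne hd with hneg | hpos
  · obtain ⟨j, hj, hjA⟩ := h (a + ((k - 1 : ℕ) : ℤ) * d) (-d) (by omega)
    refine ⟨k - 1 - j, by omega, ?_⟩
    have e : a + ((k - 1 : ℕ) : ℤ) * d + j * -d = a + ((k - 1 - j : ℕ) : ℤ) * d := by
      have : ((k - 1 - j : ℕ) : ℤ) = ((k - 1 : ℕ) : ℤ) - j := by
        rw [Nat.cast_sub (by omega)]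
      rw [this]; ring
    rwa [e] at hjA
  · exact h a d hpos

theorem Free.shift {k : ℕ} {T : Finset ℤ} (h : Free k T) (c : ℤ) :
    Free k (T.image fun x => x + c) := by
  intro a d hd
  obtain ⟨j, hj, hn⟩ := h (a - c) d hd
  refine ⟨j, hj, fun hh => hn ?_⟩
  rw [mem_image] at hh
  obtain ⟨x, hx, he⟩ := hh
  have : a - c + j * d = x := by omega
  rwa [this]

/-- an arithmetic sequence from three term relations -/
theorem arith_seq {k : ℕ} (g : ℕ → ℤ) (hg : ∀ j, j + 2 < k → g j + g (j + 2) = 2 * g (j + 1)) :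
    ∀ j < k, g j = g 0 + j * (g 1 - g 0) := by
  intro j
  induction j using Nat.strong_induction_on with
  | _ j ih =>
    intro hj
    match j, ih, hj with
    | 0, _, _ => simp
    | 1, _, _ => simp
    | (m + 2), ih, hj =>
      have h1 := ih m (by omega) (by omega)
      have h2 := ih (m + 1) (by omega) (by omega)
      have h3 := hg m hj
      push_cast at h1 h2 ⊢
      linarith

/-- abbreviation for the largest size of a `k`-AP-free subset -/
noncomputable def r (k : ℕ) (S : Finset ℤ) : ℕ := S.maxAPFreeCard k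

theorem r_spec {k : ℕ} (hk : 3 ≤ k) (S : Finset ℤ) : ∃ T ⊆ S, Free k T ∧ T.card = r k S :=
  (maxAPFreeCard_spec hk S).1

theorem le_r {k : ℕ} (hk : 3 ≤ k) {S T : Finset ℤ} (hT : T ⊆ S) (hf : Free k T) :
    T.card ≤ r k S :=
  (maxAPFreeCard_spec hk S).2 T hT hf

theorem R_eq (k N : ℕ) : Nb572fa8d.R k N = r k (Icc (1 : ℤ) N) := rfl

theorem R_spec {k : ℕ} (hk : 3 ≤ k) (N : ℕ) :
    ∃ T ⊆ Icc (1 : ℤ) N, Free k T ∧ T.card = Nb572fa8d.R k N := r_spec hk _

theorem le_R {k : ℕ} (hk : 3 ≤ k) {N : ℕ} {T : Finset ℤ} (hT : T ⊆ Icc (1 : ℤ) N)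
    (hf : Free k T) : T.card ≤ Nb572fa8d.R k N := le_r hk hT hf

theorem R_le {k : ℕ} (hk : 3 ≤ k) (N : ℕ) : Nb572fa8d.R k N ≤ N := by
  obtain ⟨T, hT, _, hc⟩ := R_spec hk N
  rw [← hc]
  refine (card_le_card hT).trans ?_
  simp

theorem R_mono {k : ℕ} (hk : 3 ≤ k) {M N : ℕ} (h : M ≤ N) :
    Nb572fa8d.R k M ≤ Nb572fa8d.R k N := by
  obtain ⟨T, hT, hf, hc⟩ := R_spec hk M
  rw [← hc]
  refine le_R hk (hT.trans ?_) hf
  intro x hx
  rw [mem_Icc] at hx ⊢
  omega

theorem R_add {k : ℕ} (hk : 3 ≤ k) (M N : ℕ) :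
    Nb572fa8d.R k (M + N) ≤ Nb572fa8d.R k M + Nb572fa8d.R k N := by
  obtain ⟨T, hT, hf, hc⟩ := R_spec hk (M + N)
  have h1 : (T.filter fun x => x ≤ (M : ℤ)).card ≤ Nb572fa8d.R k M := by
    refine le_R hk ?_ (hf.mono (filter_subset _ _))
    intro x hx
    rw [mem_filter] at hx
    have := hT hx.1
    rw [mem_Icc] at this ⊢
    omega
  have h2 : ((T.filter fun x => ¬ x ≤ (M : ℤ)).image fun x => x + (-(M : ℤ))).card ≤
      Nb572fa8d.R k N := by
    refine le_R hk ?_ ((hf.mono (filter_subset _ _)).shift _)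
    intro x hx
    rw [mem_image] at hx
    obtain ⟨y, hy, rfl⟩ := hx
    rw [mem_filter] at hy
    have := hT hy.1
    rw [mem_Icc] at this ⊢
    push_cast at this
    omega
  rw [card_image_of_injective _ (add_left_injective _)] at h2
  rw [← hc, ← card_filter_add_card_filter_not (fun x => x ≤ (M : ℤ))]
  exact add_le_add h1 h2

theorem R_mul {k : ℕ} (hk : 3 ≤ k) (q N : ℕ) :
    Nb572fa8d.R k (q * N) ≤ q * Nb572fa8d.R k N := by
  induction q with
  | zero =>
    have := R_le hk 0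
    simp only [Nat.zero_mul]
    omega
  | succ q ih =>
    rw [Nat.succ_mul, Nat.succ_mul]
    exact (R_add hk _ _).trans (Nat.add_le_add_right ih _)

/-- `R(M) / M ≤ (1 + N / M) R(N) / N` -/
theorem R_ratio {k : ℕ} (hk : 3 ≤ k) {M N : ℕ} (hN : 0 < N) :
    (Nb572fa8d.R k M : ℝ) * N ≤ (M + N) * Nb572fa8d.R k N := by
  have h1 : M ≤ (M / N + 1) * N := by
    have := Nat.div_add_mod M N
    have h2 := Nat.mod_lt M hN
    nlinarith
  have h3 : Nb572fa8d.R k M ≤ (M / N + 1) * Nb572fa8d.R k N :=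
    (R_mono hk h1).trans (R_mul hk _ _)
  have h4 : (M / N + 1) * N ≤ M + N := by
    have := Nat.div_mul_le_self M N
    linarith
  have h5 : Nb572fa8d.R k M * N ≤ (M + N) * Nb572fa8d.R k N := by
    calc Nb572fa8d.R k M * N ≤ (M / N + 1) * Nb572fa8d.R k N * N :=
          Nat.mul_le_mul_right _ h3
      _ = ((M / N + 1) * N) * Nb572fa8d.R k N := by ring
      _ ≤ (M + N) * Nb572fa8d.R k N := Nat.mul_le_mul_right _ h4
  exact_mod_cast h5

theorem R_behrend {k : ℕ} (hk : 3 ≤ k) (N : ℕ) :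
    (N : ℝ) * exp (-4 * √(log N)) ≤ Nb572fa8d.R k N := by
  refine Behrend.roth_lower_bound.trans ?_
  obtain ⟨t, ht, hc, hf⟩ := rothNumberNat_spec N
  rw [← hc]
  have h1 : (t.image fun n : ℕ => (n : ℤ) + 1).card ≤ Nb572fa8d.R k N := by
    refine le_R hk ?_ ?_
    · intro x hx
      rw [mem_image] at hx
      obtain ⟨n, hn, rfl⟩ := hx
      have := ht hn
      rw [mem_range] at this
      rw [mem_Icc]
      omega
    · intro a d hd
      by_contra hcon
      push Not at hcon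
      have e0 := hcon 0 (by omega)
      have e1 := hcon 1 (by omega)
      have e2 := hcon 2 (by omega)
      rw [mem_image] at e0 e1 e2
      obtain ⟨x, hx, hx'⟩ := e0
      obtain ⟨y, hy, hy'⟩ := e1
      obtain ⟨z, hz, hz'⟩ := e2
      push_cast at hx' hy' hz'
      have h3 : x + z = y + y := by
        have : ((x + z : ℕ) : ℤ) = ((y + y : ℕ) : ℤ) := by
          push_cast
          linarith
        exact_mod_cast this
      have h4 := hf hx hy hz h3
      subst h4
      linarith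
  rw [card_image_of_injective] at h1
  · exact_mod_cast h1
  · intro a b hab
    have : (a : ℤ) = b := by simpa using hab
    exact_mod_cast this

theorem R_pos {k : ℕ} (hk : 3 ≤ k) {N : ℕ} (hN : 0 < N) : 0 < Nb572fa8d.R k N := by
  have h1 := R_behrend hk N
  have h2 : (0 : ℝ) < (N : ℝ) * exp (-4 * √(log N)) := by positivity
  exact_mod_cast h2.trans_le h1

/-- `f` is injective on `S` and preserves the relations `x + z = 2 y` of elements of `S` -/
def Pres (S : Finset ℤ) (f : ℤ → ℤ) : Prop :=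
  Set.InjOn f S ∧ ∀ x ∈ S, ∀ y ∈ S, ∀ z ∈ S, x + z = 2 * y → f x + f z = 2 * f y

/-- pull back of a progression-free set -/
theorem free_pull {k : ℕ} (hk : 3 ≤ k) {S S' : Finset ℤ} {f : ℤ → ℤ} (hf : Pres S f)
    (hS : S' ⊆ S) (g : ℤ → ℤ) (A : Finset ℤ) (hA : Free k A) (hg : ∀ x ∈ S', g x ∈ A)
    (hinj : ∀ x ∈ S', ∀ y ∈ S', x ≠ y → g x ≠ g y)
    (hrel : ∀ x ∈ S', ∀ y ∈ S', ∀ z ∈ S', f x + f z = 2 * f y → g x + g z = 2 * g y) :
    Free k S' := by
  intro a d hd
  by_contra hcon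
  push Not at hcon
  have h1 : ∀ j < k, g (a + j * d) = g (a + (0 : ℕ) * d) +
      j * (g (a + (1 : ℕ) * d) - g (a + (0 : ℕ) * d)) := by
    refine arith_seq (fun j : ℕ => g (a + j * d)) ?_
    intro j hj
    have m0 := hcon j (by omega)
    have m1 := hcon (j + 1) (by omega)
    have m2 := hcon (j + 2) (by omega)
    refine hrel _ m0 _ m1 _ m2 (hf.2 _ (hS m0) _ (hS m1) _ (hS m2) ?_)
    push_cast
    ring
  have h2 : g (a + (1 : ℕ) * d) - g (a + (0 : ℕ) * d) ≠ 0 := by
    have := hinj _ (hcon 1 (by omega)) _ (hcon 0 (by omega)) (by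
      push_cast
      intro h
      have : d = 0 := by linarith
      omega)
    intro h
    exact this (by linarith)
  obtain ⟨j, hj, hn⟩ := hA.ne hk (g (a + (0 : ℕ) * d)) _ h2
  rw [← h1 j hj] at hn
  exact hn (hg _ (hcon j hj))

/-- averaging over translates of an extremal subset of `{1, …, M}` -/
theorem transfer {k : ℕ} (hk : 3 ≤ k) (S : Finset ℤ) (f : ℤ → ℤ) (hf : Pres S f) (L : ℕ)
    (hL : ∀ x ∈ S, ∀ y ∈ S, f x - f y ≤ L) (M : ℕ) :
    S.card * Nb572fa8d.R k M ≤ (M + L) * r k S := by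
  classical
  rcases S.eq_empty_or_nonempty with rfl | hne
  · simp
  obtain ⟨A, hA, hAf, hAc⟩ := R_spec hk M
  obtain ⟨x0, hx0, hmin⟩ := S.exists_min_image f hne
  have hX : ∀ t : ℤ, (S.filter fun s => f s - f x0 + t ∈ A).card ≤ r k S := by
    intro t
    refine le_r hk (filter_subset _ _) ?_
    refine free_pull hk hf (filter_subset _ _) (fun s => f s - f x0 + t) A hAf ?_ ?_ ?_
    · intro x hx
      exact (mem_filter.1 hx).2
    · intro x hx y hy hxy h
      have h1 : f x = f y := by linarith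
      exact hxy (hf.1 (mem_filter.1 hx).1 (mem_filter.1 hy).1 h1)
    · intro x _ y _ z _ h
      linarith
  have hsum : ∑ t ∈ Icc (1 - (L : ℤ)) M, (S.filter fun s => f s - f x0 + t ∈ A).card =
      S.card * A.card := by
    have h1 : ∀ t : ℤ, (S.filter fun s => f s - f x0 + t ∈ A).card =
        ∑ s ∈ S, if f s - f x0 + t ∈ A then 1 else 0 := by
      intro t
      rw [card_filter]
    simp_rw [h1]
    rw [sum_comm]
    rw [← smul_eq_mul, ← sum_const]
    refine sum_congr rfl fun s hs => ?_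
    rw [← card_filter]
    refine card_bij (fun t _ => f s - f x0 + t) ?_ ?_ ?_
    · intro t ht
      exact (mem_filter.1 ht).2
    · intro t _ t' _ h
      linarith
    · intro b hb
      have hb' := hA hb
      rw [mem_Icc] at hb'
      refine ⟨b - (f s - f x0), ?_, by ring⟩
      rw [mem_filter, mem_Icc]
      have h3 := hmin s hs
      have h4 := hL s hs x0 hx0
      refine ⟨⟨by linarith, by linarith⟩, ?_⟩
      have : f s - f x0 + (b - (f s - f x0)) = b := by ring
      rwa [this]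
  rw [← hAc, ← hsum]
  refine (sum_le_card_nsmul _ _ _ fun t _ => hX t).trans ?_
  rw [smul_eq_mul]
  refine Nat.mul_le_mul_right _ ?_
  rw [Int.card_Icc]
  omega

end Pool.Agent.MPbdcdc5.AA
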