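import Mathlib
import Pool.Prelude.Def_F_58bd55a0

/-!
# Random dilates: arcs in the cyclic group of prime order
-/

set_option autoImplicit false

namespace Pool.Agent.MPbdcdc5

open Finset
open scoped Classical

noncomputable section

/-! ### Elementary description of progression-free sets -/

theorem apfree_iff {k : ℕ} (hk : 3 ≤ k) (A : Finset ℤ) :
    (A : Set ℤ).IsAPOfLengthFree k ↔
      ∀ a d : ℤ, 0 < d → ∃ j < k, a + j * d ∉ A := by
  constructor
  · intro h a d hd
    by_contra hcon
    push Not at hcon
    have h1 : (k : ℕ∞) ≤ 1 := by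
      refine h {x | ∃ (n : ℕ) (_ : (n : ℕ∞) < k), a + n • d = x} ?_ ⟨a, d, ?_, rfl⟩
      · rintro x ⟨n, hn, rfl⟩
        have hn' : n < k := by exact_mod_cast hn
        have := hcon n hn'
        simpa using this
      · have h2 : {x | ∃ (n : ℕ) (_ : (n : ℕ∞) < k), a + n • d = x} =
            (((range k).image fun n : ℕ => a + n * d : Finset ℤ) : Set ℤ) := by
          ext x
          simp [nsmul_eq_mul]
        rw [h2]
        rw [ENat.card_coe_set_eq, Set.encard_coe_eq_coe_finsetCard]
        rw [Finset.card_image_of_injective, Finset.card_range]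
        intro m n hmn
        have h3 : (m : ℤ) * d = n * d := by simpa using hmn
        have h4 := mul_right_cancel₀ hd.ne' h3
        exact_mod_cast h4
    have h5 : k ≤ 1 := by exact_mod_cast h1
    omega
  · intro h t ht hap
    obtain ⟨a, d, hcard, heq⟩ := hap
    exfalso
    have hmem : ∀ n < k, a + n * d ∈ A := by
      intro n hn
      have : a + n • d ∈ t := by
        rw [heq]
        exact ⟨n, by exact_mod_cast hn, rfl⟩
      have := ht this
      simpa [nsmul_eq_mul] using this
    have hd : d ≠ 0 := by
      rintro rfl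
      have h1 : t ⊆ {a} := by
        rw [heq]
        rintro x ⟨n, _, rfl⟩
        simp
      have h2 : ENat.card t ≤ 1 := by
        rw [ENat.card_coe_set_eq]
        exact (Set.encard_le_encard h1).trans (by simp)
      rw [hcard] at h2
      have : k ≤ 1 := by exact_mod_cast h2
      omega
    rcases lt_or_gt_of_ne hd with hneg | hpos
    · obtain ⟨j, hj, hjA⟩ := h (a + ((k - 1 : ℕ) : ℤ) * d) (-d) (by omega)
      refine hjA ?_
      have := hmem (k - 1 - j) (by omega)
      have e : a + ((k - 1 : ℕ) : ℤ) * d + j * -d = a + ((k - 1 - j : ℕ) : ℤ) * d := by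
        have : ((k - 1 - j : ℕ) : ℤ) = ((k - 1 : ℕ) : ℤ) - j := by
          rw [Nat.cast_sub (by omega)]
        rw [this]; ring
      rw [e]; exact this
    · obtain ⟨j, hj, hjA⟩ := h a d hpos
      exact hjA (hmem j hj)

/-! ### Counting pairs that start a three-term progression -/

/-- pairs `x < y` of `S` with `2 y - x ∈ S` -/
def prs (S : Finset ℤ) : Finset (ℤ × ℤ) :=
  (S ×ˢ S).filter fun z => z.1 < z.2 ∧ 2 * z.2 - z.1 ∈ S

theorem sum_min_le (n : ℕ) : 4 * ∑ i ∈ range n, min i (n - 1 - i) ≤ n ^ 2 := by
  induction n using Nat.twoStepInduction with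
  | zero => simp
  | one => simp
  | more n ih _ =>
    have h1 : ∑ i ∈ range (n + 2), min i (n + 2 - 1 - i) =
        n + ∑ i ∈ range n, min i (n - 1 - i) := by
      rw [Finset.sum_range_succ, Finset.sum_range_succ']
      have h2 : ∀ i ∈ range n, min (i + 1) (n + 2 - 1 - (i + 1)) = 1 + min i (n - 1 - i) := by
        intro i hi
        have := Finset.mem_range.1 hi
        omega
      rw [Finset.sum_congr rfl h2, Finset.sum_add_distrib]
      simp
    rw [h1]
    nlinarith

theorem card_prs_le (S : Finset ℤ) : 4 * (prs S).card ≤ S.card ^ 2 := by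
  set b : ℤ → ℕ := fun y => (S.filter fun x => x < y).card with hb
  have hbinj : Set.InjOn b S := by
    intro x hx y hy hxy
    by_contra hne
    have key : ∀ x ∈ S, ∀ y ∈ S, x < y → b x < b y := by
      intro x hx y _ hlt
      refine Finset.card_lt_card ⟨?_, ?_⟩
      · intro z hz
        rw [Finset.mem_filter] at hz ⊢
        exact ⟨hz.1, hz.2.trans hlt⟩
      · intro hsub
        have : x ∈ S.filter fun z => z < x := hsub (by rw [Finset.mem_filter]; exact ⟨hx, hlt⟩)
        rw [Finset.mem_filter] at this
        exact lt_irrefl _ this.2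
    rcases lt_or_gt_of_ne hne with h | h
    · exact absurd hxy (key x hx y hy h).ne
    · exact absurd hxy (key y hy x hx h).ne'
  have hblt : ∀ y ∈ S, b y < S.card := by
    intro y hy
    refine Finset.card_lt_card ⟨Finset.filter_subset _ _, ?_⟩
    intro hsub
    have := hsub hy
    rw [Finset.mem_filter] at this
    exact lt_irrefl _ this.2
  have habove : ∀ y ∈ S, (S.filter fun x => y < x).card = S.card - 1 - b y := by
    intro y hy
    have h1 : (S.filter fun x => x < y).card + (S.filter fun x => ¬ x < y).card = S.card :=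
      Finset.card_filter_add_card_filter_not _
    have h2 : (S.filter fun x => ¬ x < y) = insert y (S.filter fun x => y < x) := by
      ext x
      simp only [Finset.mem_filter, Finset.mem_insert]
      constructor
      · rintro ⟨h1, h2⟩
        rcases eq_or_lt_of_le (not_lt.1 h2) with h | h
        · exact Or.inl h.symm
        · exact Or.inr ⟨h1, h⟩
      · rintro (rfl | ⟨h1, h2⟩)
        · exact ⟨hy, lt_irrefl _⟩
        · exact ⟨h1, by omega⟩
    rw [h2, Finset.card_insert_of_notMem (by simp)] at h1
    have : b y = (S.filter fun x => x < y).card := rfl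
    omega
  have hfib : (prs S).card = ∑ y ∈ S, ((S.filter fun x => x < y ∧ 2 * y - x ∈ S)).card := by
    have h1 : (prs S).card = ∑ y ∈ S, ((prs S).filter fun z => z.2 = y).card :=
      Finset.card_eq_sum_card_fiberwise (fun z hz => by
        have hz' : z ∈ prs S := hz
        rw [prs, Finset.mem_filter, Finset.mem_product] at hz'
        exact hz'.1.2)
    rw [h1]
    refine Finset.sum_congr rfl fun y hy => ?_
    refine Finset.card_bij (fun z _ => z.1) ?_ ?_ ?_
    · intro z hz
      rw [Finset.mem_filter, prs, Finset.mem_filter, Finset.mem_product] at hz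
      obtain ⟨⟨⟨h2, h3⟩, h4, h5⟩, h6⟩ := hz
      rw [Finset.mem_filter]
      rw [h6] at h4 h5
      exact ⟨h2, h4, h5⟩
    · intro z hz z' hz' h
      rw [Finset.mem_filter] at hz hz'
      exact Prod.ext h (hz.2.trans hz'.2.symm)
    · intro x hx
      rw [Finset.mem_filter] at hx
      refine ⟨(x, y), ?_, rfl⟩
      rw [Finset.mem_filter, prs, Finset.mem_filter, Finset.mem_product]
      exact ⟨⟨⟨hx.1, hy⟩, hx.2⟩, rfl⟩
  have hle : ∀ y ∈ S, ((S.filter fun x => x < y ∧ 2 * y - x ∈ S)).card ≤
      min (b y) (S.card - 1 - b y) := by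
    intro y hy
    refine le_min ?_ ?_
    · refine Finset.card_le_card ?_
      intro x hx
      rw [Finset.mem_filter] at hx ⊢
      exact ⟨hx.1, hx.2.1⟩
    · rw [← habove y hy]
      refine Finset.card_le_card_of_injOn (fun x => 2 * y - x) ?_ ?_
      · intro x hx
        have hx' := Finset.mem_filter.1 (Finset.mem_coe.1 hx)
        rw [Finset.mem_coe, Finset.mem_filter]
        refine ⟨hx'.2.2, ?_⟩
        have h1 := hx'.2.1
        show y < 2 * y - x
        omega
      · intro x _ x' _ h
        have : 2 * y - x = 2 * y - x' := h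
        omega
  have h2 : ∑ y ∈ S, min (b y) (S.card - 1 - b y) ≤
      ∑ i ∈ range S.card, min i (S.card - 1 - i) := by
    rw [← Finset.sum_image (f := fun i => min i (S.card - 1 - i)) (g := b) hbinj]
    refine Finset.sum_le_sum_of_subset ?_
    intro i hi
    obtain ⟨y, hy, rfl⟩ := Finset.mem_image.1 hi
    exact Finset.mem_range.2 (hblt y hy)
  have h3 := sum_min_le S.card
  have h4 := Finset.sum_le_sum hle
  rw [hfib]
  omega

/-! ### Arcs in `ZMod p` -/

section arcs
variable (p : ℕ) [Fact p.Prime] (q : ℕ)

/-- the arc attached to `a` -/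
def arc (a : ℤ) : Finset (ZMod p) :=
  univ.filter fun x => ((x.val / q : ℕ) : ℤ) = 2 * (a - 1)

theorem mem_arc {a : ℤ} (_ha : 1 ≤ a) (hq : 0 < q) (x : ZMod p) :
    x ∈ arc p q a ↔ 2 * (a - 1) * q ≤ (x.val : ℤ) ∧ (x.val : ℤ) < 2 * (a - 1) * q + q := by
  rw [arc, Finset.mem_filter]
  simp only [Finset.mem_univ, true_and]
  push_cast
  constructor
  · intro h
    have h1 := Int.mul_ediv_add_emod (x.val : ℤ) (q : ℤ)
    have h2 := Int.emod_nonneg (x.val : ℤ) (b := (q : ℤ)) (by omega)
    have h3 := Int.emod_lt_of_pos (x.val : ℤ) (b := (q : ℤ)) (by omega)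
    rw [h] at h1
    constructor <;> nlinarith
  · rintro ⟨h1, h2⟩
    rw [Int.ediv_eq_iff_of_pos (by omega)]
    constructor <;> nlinarith

theorem card_arc_le {a : ℤ} (ha : 1 ≤ a) (hq : 0 < q) : (arc p q a).card ≤ q := by
  have h : (arc p q a).card ≤ (Finset.Ico (2 * (a - 1) * q) (2 * (a - 1) * q + q)).card := by
    refine Finset.card_le_card_of_injOn (fun x => (x.val : ℤ)) ?_ ?_
    · intro x hx
      have := (mem_arc p q ha hq x).1 (Finset.mem_coe.1 hx)
      rw [Finset.mem_coe, Finset.mem_Ico]
      exact this
    · intro x _ y _ h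
      have h' : (x.val : ℤ) = y.val := h
      exact ZMod.val_injective p (by exact_mod_cast h')
  rw [Int.card_Ico] at h
  have e : (2 * (a - 1) * q + q - 2 * (a - 1) * q : ℤ).toNat = q := by
    have : (2 * (a - 1) * q + q - 2 * (a - 1) * q : ℤ) = q := by ring
    rw [this]; simp
  omega

theorem card_arc {a : ℤ} {N : ℕ} (ha : 1 ≤ a) (haN : a ≤ N) (hq : 0 < q) (hp : 4 * N * q ≤ p) :
    (arc p q a).card = q := by
  refine le_antisymm (card_arc_le p q ha hq) ?_
  have h : (Finset.range q).card ≤ (arc p q a).card := by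
    refine Finset.card_le_card_of_injOn
      (fun i => (((2 * (a - 1) * q).toNat + i : ℕ) : ZMod p)) ?_ ?_
    · intro i hi
      have hi' : i < q := Finset.mem_range.1 (Finset.mem_coe.1 hi)
      have h0 : (0:ℤ) ≤ 2 * (a - 1) * q := by
        have : 0 ≤ a - 1 := by omega
        positivity
      have h1 : (2 * (a - 1) * q).toNat + i < p := by
        have h2 : ((2 * (a - 1) * q).toNat : ℤ) = 2 * (a - 1) * q := Int.toNat_of_nonneg h0
        have h3 : (4 * N * q : ℤ) ≤ p := by exact_mod_cast hp
        have h4 : (((2 * (a - 1) * q).toNat + i : ℕ) : ℤ) < p := by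
          push_cast
          rw [h2]
          have h5 : (a - 1) * q ≤ ((N:ℤ) - 1) * q :=
            mul_le_mul_of_nonneg_right (by omega) (by omega)
          have h6 : (i : ℤ) < q := by exact_mod_cast hi'
          nlinarith
        exact_mod_cast h4
      rw [Finset.mem_coe, mem_arc p q ha hq, ZMod.val_natCast_of_lt h1]
      push_cast
      rw [Int.toNat_of_nonneg h0]
      constructor <;> omega
    · intro i hi j hj h
      have key : ∀ i < q, (2 * (a - 1) * q).toNat + i < p := by
        intro i hi'
        have h0 : (0:ℤ) ≤ 2 * (a - 1) * q := by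
          have : 0 ≤ a - 1 := by omega
          positivity
        have h2 : ((2 * (a - 1) * q).toNat : ℤ) = 2 * (a - 1) * q := Int.toNat_of_nonneg h0
        have h3 : (4 * N * q : ℤ) ≤ p := by exact_mod_cast hp
        have h4 : (((2 * (a - 1) * q).toNat + i : ℕ) : ℤ) < p := by
          push_cast
          rw [h2]
          have h5 : (a - 1) * q ≤ ((N:ℤ) - 1) * q :=
            mul_le_mul_of_nonneg_right (by omega) (by omega)
          have h6 : (i : ℤ) < q := by exact_mod_cast hi'
          nlinarith
        exact_mod_cast h4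
      have hi' := Finset.mem_range.1 (Finset.mem_coe.1 hi)
      have hj' := Finset.mem_range.1 (Finset.mem_coe.1 hj)
      have h1 := congrArg ZMod.val h
      simp only at h1
      rw [ZMod.val_natCast_of_lt (key i hi'), ZMod.val_natCast_of_lt (key j hj')] at h1
      omega
  rwa [Finset.card_range] at h

end arcs

end

end Pool.Agent.MPbdcdc5
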