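import Pool.Agent.Lib.MP_bdcdc5_co.Basic

/-!
# Random dilates: counting
-/

set_option autoImplicit false

namespace Pool.Agent.MPbdcdc5

open Finset
open scoped Classical

noncomputable section

variable (p : ℕ) [Fact p.Prime] (q : ℕ)

/-- an integer that is divisible by `p` and less than `p` in absolute value is `0` -/
theorem eq_zero_of_dvd_abs {p : ℕ} {x : ℤ} (h : ((x : ℤ) : ZMod p) = 0) (h1 : -(p:ℤ) < x)
    (h2 : x < p) : x = 0 := by
  rw [ZMod.intCast_zmod_eq_zero_iff_dvd] at h
  obtain ⟨c, hc⟩ := h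
  rcases lt_trichotomy c 0 with h3 | h3 | h3
  · nlinarith
  · rw [hc, h3, mul_zero]
  · nlinarith

/-- progressions of arcs: if `u, u + v, …` all lie in arcs, the indices form a progression and the
real lifts form a progression -/
theorem lift_triple {N : ℕ} (hq : 0 < q) (hp : 4 * N * q ≤ p) {a b c : ℤ}
    (ha : 1 ≤ a ∧ a ≤ N) (hb : 1 ≤ b ∧ b ≤ N) (hc : 1 ≤ c ∧ c ≤ N) {x y z : ZMod p}
    (hx : x ∈ arc p q a) (hy : y ∈ arc p q b) (hz : z ∈ arc p q c) (h : x + z = 2 * y) :
    a + c = 2 * b ∧ (x.val : ℤ) + z.val = 2 * y.val := by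
  have : NeZero p := ⟨(Fact.out : p.Prime).ne_zero⟩
  rw [mem_arc p q ha.1 hq] at hx
  rw [mem_arc p q hb.1 hq] at hy
  rw [mem_arc p q hc.1 hq] at hz
  have hp' : (4 * N * q : ℤ) ≤ p := by exact_mod_cast hp
  have hq' : (0:ℤ) < q := by exact_mod_cast hq
  have h0 : (((x.val : ℤ) + z.val - 2 * y.val : ℤ) : ZMod p) = 0 := by
    push_cast
    rw [ZMod.natCast_zmod_val, ZMod.natCast_zmod_val, ZMod.natCast_zmod_val, h, sub_self]
  have h1 : (x.val : ℤ) + z.val - 2 * y.val = 0 := by
    refine eq_zero_of_dvd_abs h0 ?_ ?_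
    · have e1 : (1:ℤ) * q ≤ a * q := mul_le_mul_of_nonneg_right ha.1 hq'.le
      have e2 : (1:ℤ) * q ≤ c * q := mul_le_mul_of_nonneg_right hc.1 hq'.le
      have e3 : b * q ≤ N * q := mul_le_mul_of_nonneg_right hb.2 hq'.le
      nlinarith
    · have e1 : a * q ≤ N * q := mul_le_mul_of_nonneg_right ha.2 hq'.le
      have e2 : c * q ≤ N * q := mul_le_mul_of_nonneg_right hc.2 hq'.le
      have e3 : (1:ℤ) * q ≤ b * q := mul_le_mul_of_nonneg_right hb.1 hq'.le
      nlinarith
  refine ⟨?_, by omega⟩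
  have h2 : 2 * (a + c - 2 * b) * q < 2 * q := by nlinarith
  have h3 : -(2 * (q:ℤ)) < 2 * (a + c - 2 * b) * q := by nlinarith
  have h4 : a + c - 2 * b < 1 := by nlinarith
  have h5 : -1 < a + c - 2 * b := by nlinarith
  omega

/-- number of progressions in one arc -/
theorem card_local_le {N k : ℕ} (hk : 3 ≤ k) (hq : 0 < q) (hp : 4 * N * q ≤ p) {a : ℤ}
    (ha : 1 ≤ a ∧ a ≤ N) :
    (k - 1) * (univ.filter fun w : ZMod p × ZMod p =>
      ∀ j < k, w.1 + (j : ZMod p) * w.2 ∈ arc p q a).card ≤ q * (q + (k - 1)) := by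
  have hne : NeZero p := ⟨(Fact.out : p.Prime).ne_zero⟩
  set F := univ.filter fun w : ZMod p × ZMod p =>
      ∀ j < k, w.1 + (j : ZMod p) * w.2 ∈ arc p q a with hF
  -- real lifts
  have hlift : ∀ w ∈ F, ∀ j < k, ((w.1 + (j : ZMod p) * w.2).val : ℤ) =
      w.1.val + j * (((w.1 + w.2).val : ℤ) - w.1.val) := by
    intro w hw
    rw [hF, Finset.mem_filter] at hw
    have hw' := hw.2
    intro j
    induction j using Nat.twoStepInduction with
    | zero => intro _; simp
    | one => intro _; simp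
    | more j ih1 ih2 =>
      intro hj
      have h1 := ih1 (by omega)
      have h2 := ih2 (by omega)
      have h3 := (lift_triple p q hq hp ha ha ha (hw' j (by omega)) (hw' (j + 1) (by omega))
        (hw' (j + 2) hj) (by push_cast; ring)).2
      rw [h1, h2] at h3
      push_cast at h3 ⊢
      linarith
  -- the first and the last term determine the progression
  have hsub : F.card ≤ ((arc p q a ×ˢ arc p q a).filter fun z : ZMod p × ZMod p =>
      ((k - 1 : ℕ) : ℤ) ∣ (z.2.val : ℤ) - z.1.val).card := by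
    refine Finset.card_le_card_of_injOn
      (fun w => (w.1, w.1 + ((k - 1 : ℕ) : ZMod p) * w.2)) ?_ ?_
    · intro w hw
      have hw1 := Finset.mem_coe.1 hw
      have hw2 := hw1
      rw [hF, Finset.mem_filter] at hw2
      rw [Finset.mem_coe, Finset.mem_filter, Finset.mem_product]
      refine ⟨⟨?_, hw2.2 (k - 1) (by omega)⟩, ?_⟩
      · have := hw2.2 0 (by omega)
        simpa using this
      · have := hlift w hw1 (k - 1) (by omega)
        simp only
        rw [this]
        exact ⟨((w.1 + w.2).val : ℤ) - w.1.val, by ring⟩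
    · intro w hw w' hw' h
      have hw1 := Finset.mem_coe.1 hw
      have hw1' := Finset.mem_coe.1 hw'
      have hh : (w.1, w.1 + ((k - 1 : ℕ) : ZMod p) * w.2) =
        (w'.1, w'.1 + ((k - 1 : ℕ) : ZMod p) * w'.2) := h
      have h1 : w.1 = w'.1 := (Prod.mk.inj hh).1
      have h2 : w.1 + ((k - 1 : ℕ) : ZMod p) * w.2 = w'.1 + ((k - 1 : ℕ) : ZMod p) * w'.2 :=
        (Prod.mk.inj hh).2
      have h3 := hlift w hw1 (k - 1) (by omega)
      have h4 := hlift w' hw1' (k - 1) (by omega)
      rw [h2, h4, h1] at h3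
      have h5 : ((k - 1 : ℕ) : ℤ) * (((w'.1 + w'.2).val : ℤ) - w'.1.val) =
          ((k - 1 : ℕ) : ℤ) * (((w'.1 + w.2).val : ℤ) - w'.1.val) := by linarith
      have h6 := mul_left_cancel₀ (by
        have : 0 < k - 1 := by omega
        exact_mod_cast this.ne') h5
      have h7 : (w'.1 + w'.2).val = (w'.1 + w.2).val := by
        have : ((w'.1 + w'.2).val : ℤ) = ((w'.1 + w.2).val : ℤ) := by linarith
        exact_mod_cast this
      have h8 := add_left_cancel (ZMod.val_injective p h7)
      exact Prod.ext h1 h8.symm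
  -- count
  have hcount : ((arc p q a ×ˢ arc p q a).filter fun z : ZMod p × ZMod p =>
      ((k - 1 : ℕ) : ℤ) ∣ (z.2.val : ℤ) - z.1.val).card ≤ q * (q / (k - 1) + 1) := by
    have h1 : ((arc p q a ×ˢ arc p q a).filter fun z : ZMod p × ZMod p =>
      ((k - 1 : ℕ) : ℤ) ∣ (z.2.val : ℤ) - z.1.val).card =
      ∑ x ∈ arc p q a, (((arc p q a ×ˢ arc p q a).filter fun z : ZMod p × ZMod p =>
      ((k - 1 : ℕ) : ℤ) ∣ (z.2.val : ℤ) - z.1.val).filter fun z => z.1 = x).card :=
      Finset.card_eq_sum_card_fiberwise (fun z hz => by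
        have hz' := Finset.mem_filter.1 (Finset.mem_coe.1 hz)
        rw [Finset.mem_product] at hz'
        exact hz'.1.1)
    rw [h1]
    have h2 : ∀ x ∈ arc p q a, (((arc p q a ×ˢ arc p q a).filter fun z : ZMod p × ZMod p =>
      ((k - 1 : ℕ) : ℤ) ∣ (z.2.val : ℤ) - z.1.val).filter fun z => z.1 = x).card ≤
        q / (k - 1) + 1 := by
      intro x hx
      have h3 : (((arc p q a ×ˢ arc p q a).filter fun z : ZMod p × ZMod p =>
        ((k - 1 : ℕ) : ℤ) ∣ (z.2.val : ℤ) - z.1.val).filter fun z => z.1 = x).card ≤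
        (Finset.range (q / (k - 1) + 1)).card := by
        refine Finset.card_le_card_of_injOn
          (fun z => ((((z.2.val : ℤ) - 2 * (a - 1) * q)) / ((k - 1 : ℕ) : ℤ)).toNat) ?_ ?_
        · intro z hz
          have hz' := Finset.mem_coe.1 hz
          rw [Finset.mem_filter, Finset.mem_filter, Finset.mem_product] at hz'
          have hz2 := (mem_arc p q ha.1 hq _).1 hz'.1.1.2
          rw [Finset.mem_coe, Finset.mem_range]
          simp only
          have h4 : ((z.2.val : ℤ) - 2 * (a - 1) * q) / ((k - 1 : ℕ) : ℤ) ≤ (q : ℤ) / ((k - 1 : ℕ) : ℤ) :=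
            Int.ediv_le_ediv (by
              have : 0 < k - 1 := by omega
              exact_mod_cast this) (by omega)
          have h5 : ((q / (k - 1) : ℕ) : ℤ) = (q : ℤ) / ((k - 1 : ℕ) : ℤ) := by push_cast; rfl
          have h6 : 0 ≤ (q : ℤ) / ((k - 1 : ℕ) : ℤ) := by positivity
          omega
        · intro z hz z' hz' h
          have hz1 := Finset.mem_coe.1 hz
          rw [Finset.mem_filter, Finset.mem_filter, Finset.mem_product] at hz1
          have hz2 := Finset.mem_coe.1 hz'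
          rw [Finset.mem_filter, Finset.mem_filter, Finset.mem_product] at hz2
          have e1 := (mem_arc p q ha.1 hq _).1 hz1.1.1.2
          have e2 := (mem_arc p q ha.1 hq _).1 hz2.1.1.2
          have hk0 : (0:ℤ) < ((k - 1 : ℕ) : ℤ) := by
            have : 0 < k - 1 := by omega
            exact_mod_cast this
          have hfst : z.1 = z'.1 := hz1.2.trans hz2.2.symm
          refine Prod.ext hfst ?_
          simp only at h
          have f1 : 0 ≤ ((z.2.val : ℤ) - 2 * (a - 1) * q) / ((k - 1 : ℕ) : ℤ) :=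
            Int.ediv_nonneg (by omega) hk0.le
          have f2 : 0 ≤ ((z'.2.val : ℤ) - 2 * (a - 1) * q) / ((k - 1 : ℕ) : ℤ) :=
            Int.ediv_nonneg (by omega) hk0.le
          have f3 : ((z.2.val : ℤ) - 2 * (a - 1) * q) / ((k - 1 : ℕ) : ℤ) =
              ((z'.2.val : ℤ) - 2 * (a - 1) * q) / ((k - 1 : ℕ) : ℤ) := by
            rw [← Int.toNat_of_nonneg f1, ← Int.toNat_of_nonneg f2, h]
          have g1 := hz1.1.2
          have g2 := hz2.1.2
          rw [hfst] at g1
          have g3 : ((k - 1 : ℕ) : ℤ) ∣ ((z.2.val : ℤ) - 2 * (a - 1) * q) -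
              ((z'.2.val : ℤ) - 2 * (a - 1) * q) := by
            have := dvd_sub g1 g2
            have e : ((z.2.val : ℤ) - 2 * (a - 1) * q) - ((z'.2.val : ℤ) - 2 * (a - 1) * q) =
              (z.2.val : ℤ) - z'.1.val - ((z'.2.val : ℤ) - z'.1.val) := by ring
            rw [e]; exact this
          have g4 := Int.mul_ediv_add_emod ((z.2.val : ℤ) - 2 * (a - 1) * q) ((k - 1 : ℕ) : ℤ)
          have g5 := Int.mul_ediv_add_emod ((z'.2.val : ℤ) - 2 * (a - 1) * q) ((k - 1 : ℕ) : ℤ)
          have g7 : ((z.2.val : ℤ) - 2 * (a - 1) * q) % ((k - 1 : ℕ) : ℤ) =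
              ((z'.2.val : ℤ) - 2 * (a - 1) * q) % ((k - 1 : ℕ) : ℤ) :=
            Int.emod_eq_emod_iff_emod_sub_eq_zero.2 (Int.emod_eq_zero_of_dvd g3)
          rw [f3, g7] at g4
          have g8 : (z.2.val : ℤ) = z'.2.val := by linarith
          exact ZMod.val_injective p (by exact_mod_cast g8)
      rwa [Finset.card_range] at h3
    refine (Finset.sum_le_sum h2).trans ?_
    rw [Finset.sum_const, smul_eq_mul]
    exact Nat.mul_le_mul_right _ (card_arc_le p q ha.1 hq)
  calc (k - 1) * F.card ≤ (k - 1) * (q * (q / (k - 1) + 1)) :=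
        Nat.mul_le_mul_left _ (hsub.trans hcount)
    _ = q * ((k - 1) * (q / (k - 1)) + (k - 1)) := by ring
    _ ≤ q * (q + (k - 1)) := by
        refine Nat.mul_le_mul_left _ (Nat.add_le_add_right (Nat.mul_div_le q (k - 1)) _)

end

end Pool.Agent.MPbdcdc5
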