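import Pool.Agent.Lib.MP_bdcdc5_co.Count

/-!
# Random dilates: the comparison
-/

set_option autoImplicit false

namespace Pool.Agent.MPbdcdc5

open Finset
open scoped Classical

noncomputable section

section dilate
variable (p : ℕ) [Fact p.Prime] (q : ℕ)

/-- affine image -/
def ph (t b : ZMod p) (s : ℤ) : ZMod p := t * (s : ZMod p) + b

/-- elements of `S` mapped to the arcs of `A` -/
def Sp (A S : Finset ℤ) (w : ZMod p × ZMod p) : Finset ℤ :=
  S.filter fun s => ∃ a ∈ A, ph p w.1 w.2 s ∈ arc p q a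

/-- beginnings of progressions mapped into one arc -/
def Bad (k : ℕ) (A S : Finset ℤ) (w : ZMod p × ZMod p) : Finset (ℤ × ℤ) :=
  (prs S).filter fun z => ∃ a ∈ A, ∀ j < k, ph p w.1 w.2 (z.1 + j * (z.2 - z.1)) ∈ arc p q a

theorem free_sub {N k : ℕ} (hk : 3 ≤ k) (hq : 0 < q) (hp : 4 * N * q ≤ p) {A : Finset ℤ}
    (hA : A ⊆ Icc 1 (N : ℤ)) (hAf : ∀ a d : ℤ, 0 < d → ∃ j < k, a + j * d ∉ A) (S : Finset ℤ)
    (w : ZMod p × ZMod p) :
    ∀ a d : ℤ, 0 < d → ∃ j < k, a + j * d ∉ Sp p q A S w \ (Bad p q k A S w).image Prod.fst := by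
  intro a d hd
  by_contra hcon
  push Not at hcon
  have hmem : ∀ j < k, (a + (j:ℤ) * d ∈ S) ∧ ∃ c ∈ A, ph p w.1 w.2 (a + (j:ℤ) * d) ∈ arc p q c := by
    intro j hj
    have h1 := hcon j hj
    rw [Finset.mem_sdiff, Sp, Finset.mem_filter] at h1
    exact h1.1
  choose! c hcA hc using fun j (hj : j < k) => (hmem j hj).2
  have hAb : ∀ x ∈ A, 1 ≤ x ∧ x ≤ (N:ℤ) := fun x hx => Finset.mem_Icc.1 (hA hx)
  have hstep : ∀ j, j + 2 < k → c j + c (j + 2) = 2 * c (j + 1) := by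
    intro j hj
    refine (lift_triple p q hq hp (hAb _ (hcA j (by omega))) (hAb _ (hcA (j + 1) (by omega)))
      (hAb _ (hcA (j + 2) hj)) (hc j (by omega)) (hc (j + 1) (by omega)) (hc (j + 2) hj) ?_).1
    unfold ph
    push_cast
    ring
  have hlin : ∀ j < k, c j = c 0 + j * (c 1 - c 0) := by
    intro j
    induction j using Nat.twoStepInduction with
    | zero => intro _; simp
    | one => intro _; simp
    | more j ih1 ih2 =>
      intro hj
      have h1 := ih1 (by omega)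
      have h2 := ih2 (by omega)
      have h3 := hstep j hj
      rw [h1, h2] at h3
      push_cast at h3 ⊢
      linarith
  rcases lt_trichotomy (c 0) (c 1) with h | h | h
  · obtain ⟨j, hj, hjA⟩ := hAf (c 0) (c 1 - c 0) (by omega)
    rw [← hlin j hj] at hjA
    exact hjA (hcA j hj)
  · -- all in one arc
    have h0 := hcon 0 (by omega)
    rw [Finset.mem_sdiff] at h0
    refine h0.2 ?_
    rw [Finset.mem_image]
    refine ⟨(a, a + d), ?_, by simp⟩
    rw [Bad, Finset.mem_filter, prs, Finset.mem_filter, Finset.mem_product]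
    have e0 := (hmem 0 (by omega)).1
    have e1 := (hmem 1 (by omega)).1
    have e2 := (hmem 2 (by omega)).1
    refine ⟨⟨⟨by simpa using e0, by simpa using e1⟩, by simpa using hd, ?_⟩, c 0,
      hcA 0 (by omega), ?_⟩
    · have : 2 * (a + d) - a = a + ((2 : ℕ) : ℤ) * d := by push_cast; ring
      rw [this]; exact e2
    · intro j hj
      have h1 := hc j hj
      rw [hlin j hj, ← h, sub_self, mul_zero, add_zero] at h1
      have : a + (j : ℤ) * (a + d - a) = a + (j:ℤ) * d := by ring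
      simp only
      rw [this]
      exact h1
  · obtain ⟨j, hj, hjA⟩ := hAf (c (k - 1)) (c 0 - c 1) (by omega)
    have h1 := hlin (k - 1) (by omega)
    have h2 := hlin (k - 1 - j) (by omega)
    have e : c (k - 1) + j * (c 0 - c 1) = c (k - 1 - j) := by
      rw [h1, h2]
      have : ((k - 1 - j : ℕ) : ℤ) = ((k - 1 : ℕ) : ℤ) - j := by
        rw [Nat.cast_sub (by omega)]
      rw [this]; ring
    rw [e] at hjA
    exact hjA (hcA _ (by omega))

theorem card_arcs {N : ℕ} (hq : 0 < q) (hp : 4 * N * q ≤ p) {A : Finset ℤ}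
    (hA : A ⊆ Icc 1 (N : ℤ)) :
    (univ.filter fun x : ZMod p => ∃ a ∈ A, x ∈ arc p q a).card = A.card * q := by
  have h1 : (univ.filter fun x : ZMod p => ∃ a ∈ A, x ∈ arc p q a) = A.biUnion (arc p q) := by
    ext x
    simp
  rw [h1, Finset.card_biUnion]
  · rw [Finset.sum_congr rfl fun a ha =>
      card_arc p q (Finset.mem_Icc.1 (hA ha)).1 (Finset.mem_Icc.1 (hA ha)).2 hq hp,
      Finset.sum_const, smul_eq_mul]
  · intro a _ b _ hab
    rw [Function.onFun, Finset.disjoint_left]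
    intro x hx hx'
    rw [arc, Finset.mem_filter] at hx hx'
    have := hx.2.symm.trans hx'.2
    exact hab (by omega)

theorem sum_Sp {N : ℕ} (hq : 0 < q) (hp : 4 * N * q ≤ p) {A : Finset ℤ}
    (hA : A ⊆ Icc 1 (N : ℤ)) (S : Finset ℤ) :
    ∑ w : ZMod p × ZMod p, (Sp p q A S w).card = S.card * (p * (A.card * q)) := by
  have h1 : ∀ w : ZMod p × ZMod p, (Sp p q A S w).card =
      ∑ s ∈ S, if ∃ a ∈ A, ph p w.1 w.2 s ∈ arc p q a then 1 else 0 := by
    intro w
    rw [Sp, Finset.card_filter]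
  rw [Finset.sum_congr rfl fun w _ => h1 w, Finset.sum_comm]
  have h2 : ∀ s ∈ S, (∑ w : ZMod p × ZMod p,
      if ∃ a ∈ A, ph p w.1 w.2 s ∈ arc p q a then 1 else 0) = p * (A.card * q) := by
    intro s _
    rw [Fintype.sum_prod_type]
    have h3 : ∀ t : ZMod p, (∑ b : ZMod p,
        if ∃ a ∈ A, ph p t b s ∈ arc p q a then 1 else 0) = A.card * q := by
      intro t
      rw [← card_arcs p q hq hp hA, Finset.card_filter]
      refine Fintype.sum_equiv (Equiv.addLeft (t * (s : ZMod p))) _ _ fun b => ?_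
      rfl
    rw [Finset.sum_congr rfl fun t _ => h3 t, Finset.sum_const, smul_eq_mul, Finset.card_univ,
      ZMod.card]
  rw [Finset.sum_congr rfl h2, Finset.sum_const, smul_eq_mul]

theorem sum_Bad {N k : ℕ} (hk : 3 ≤ k) (hq : 0 < q) (hp : 4 * N * q ≤ p) {A : Finset ℤ}
    (hA : A ⊆ Icc 1 (N : ℤ)) (S : Finset ℤ)
    (hS : ∀ x ∈ S, ∀ y ∈ S, x < y → ((y - x : ℤ) : ZMod p) ≠ 0) :
    (k - 1) * ∑ w : ZMod p × ZMod p, (Bad p q k A S w).card ≤
      (prs S).card * (A.card * (q * (q + (k - 1)))) := by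
  have h1 : ∀ w : ZMod p × ZMod p, (Bad p q k A S w).card ≤
      ∑ z ∈ prs S, ∑ a ∈ A,
        if ∀ j < k, ph p w.1 w.2 (z.1 + j * (z.2 - z.1)) ∈ arc p q a then 1 else 0 := by
    intro w
    rw [Bad, Finset.card_filter]
    refine Finset.sum_le_sum fun z _ => ?_
    split_ifs with h
    · obtain ⟨a, ha, h2⟩ := h
      have := Finset.single_le_sum (f := fun a =>
        if ∀ j < k, ph p w.1 w.2 (z.1 + j * (z.2 - z.1)) ∈ arc p q a then 1 else 0)
        (fun a _ => Nat.zero_le _) ha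
      rwa [if_pos h2] at this
    · exact Nat.zero_le _
  have h2 : ∑ w : ZMod p × ZMod p, (Bad p q k A S w).card ≤
      ∑ z ∈ prs S, ∑ a ∈ A, (univ.filter fun w : ZMod p × ZMod p =>
        ∀ j < k, w.1 + (j : ZMod p) * w.2 ∈ arc p q a).card := by
    refine (Finset.sum_le_sum fun w _ => h1 w).trans ?_
    rw [Finset.sum_comm]
    refine Finset.sum_le_sum fun z hz => ?_
    rw [Finset.sum_comm]
    refine Finset.sum_le_sum fun a _ => ?_
    rw [← Finset.card_filter]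
    rw [prs, Finset.mem_filter, Finset.mem_product] at hz
    have hd := hS z.1 hz.1.1 z.2 hz.1.2 hz.2.1
    refine Finset.card_le_card_of_injOn
      (fun w => (ph p w.1 w.2 z.1, w.1 * ((z.2 - z.1 : ℤ) : ZMod p))) ?_ ?_
    · intro w hw
      have hw' := Finset.mem_coe.1 hw
      rw [Finset.mem_filter] at hw'
      rw [Finset.mem_coe, Finset.mem_filter]
      refine ⟨Finset.mem_univ _, fun j hj => ?_⟩
      have h3 := hw'.2 j hj
      have e : ph p w.1 w.2 z.1 + (j : ZMod p) * (w.1 * ((z.2 - z.1 : ℤ) : ZMod p)) =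
          ph p w.1 w.2 (z.1 + j * (z.2 - z.1)) := by
        unfold ph; push_cast; ring
      simp only
      rw [e]
      exact h3
    · intro w _ w' _ h
      have hh : (ph p w.1 w.2 z.1, w.1 * ((z.2 - z.1 : ℤ) : ZMod p)) =
        (ph p w'.1 w'.2 z.1, w'.1 * ((z.2 - z.1 : ℤ) : ZMod p)) := h
      have h4 := (Prod.mk.inj hh).1
      have h5 := mul_right_cancel₀ hd (Prod.mk.inj hh).2
      unfold ph at h4
      rw [h5] at h4
      exact Prod.ext h5 (add_left_cancel h4)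
  calc (k - 1) * ∑ w : ZMod p × ZMod p, (Bad p q k A S w).card
      ≤ (k - 1) * ∑ z ∈ prs S, ∑ a ∈ A, (univ.filter fun w : ZMod p × ZMod p =>
        ∀ j < k, w.1 + (j : ZMod p) * w.2 ∈ arc p q a).card := Nat.mul_le_mul_left _ h2
    _ = ∑ z ∈ prs S, ∑ a ∈ A, (k - 1) * (univ.filter fun w : ZMod p × ZMod p =>
        ∀ j < k, w.1 + (j : ZMod p) * w.2 ∈ arc p q a).card := by
        rw [Finset.mul_sum]
        exact Finset.sum_congr rfl fun z _ => Finset.mul_sum _ _ _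
    _ ≤ ∑ z ∈ prs S, ∑ a ∈ A, q * (q + (k - 1)) := by
        refine Finset.sum_le_sum fun z _ => Finset.sum_le_sum fun a ha => ?_
        exact card_local_le p q hk hq hp (Finset.mem_Icc.1 (hA ha))
    _ = (prs S).card * (A.card * (q * (q + (k - 1)))) := by
        rw [Finset.sum_const, Finset.sum_const, smul_eq_mul, smul_eq_mul]

/-- the inequality for one prime -/
theorem ineq_prime {N k r : ℕ} (hk : 3 ≤ k) (hq : 0 < q) (hp : 4 * N * q ≤ p) {A : Finset ℤ}
    (hA : A ⊆ Icc 1 (N : ℤ)) (hAf : ∀ a d : ℤ, 0 < d → ∃ j < k, a + j * d ∉ A) (S : Finset ℤ)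
    (hSN : S.card = N)
    (hS : ∀ x ∈ S, ∀ y ∈ S, x < y → ((y - x : ℤ) : ZMod p) ≠ 0)
    (hr : ∀ T ⊆ S, (∀ a d : ℤ, 0 < d → ∃ j < k, a + j * d ∉ T) → T.card ≤ r) :
    (A.card : ℝ) * (N * ((q:ℝ) / p) - N ^ 2 / 4 * (((q:ℝ) / p) * (((q:ℝ) + (k - 1)) / p)) /
      ((k:ℝ) - 1)) ≤ r := by
  have hp0 : (0:ℝ) < p := by exact_mod_cast (Fact.out : p.Prime).pos
  have hk1 : (0:ℝ) < (k:ℝ) - 1 := by
    have : (3:ℝ) ≤ k := by exact_mod_cast hk
    linarith
  have h1 : ∀ w : ZMod p × ZMod p, (Sp p q A S w).card ≤ r + (Bad p q k A S w).card := by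
    intro w
    have h2 := hr (Sp p q A S w \ (Bad p q k A S w).image Prod.fst)
      (Finset.sdiff_subset.trans (Finset.filter_subset _ _)) (free_sub p q hk hq hp hA hAf S w)
    have h3 := Finset.le_card_sdiff ((Bad p q k A S w).image Prod.fst) (Sp p q A S w)
    have h4 : ((Bad p q k A S w).image Prod.fst).card ≤ (Bad p q k A S w).card :=
      Finset.card_image_le
    omega
  have h2 := Finset.sum_le_sum fun w (_ : w ∈ (univ : Finset (ZMod p × ZMod p))) => h1 w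
  rw [sum_Sp p q hq hp hA S, Finset.sum_add_distrib, Finset.sum_const, Finset.card_univ,
    Fintype.card_prod, ZMod.card, smul_eq_mul, hSN] at h2
  have h3 := sum_Bad p q hk hq hp hA S hS
  have h4 := card_prs_le S
  rw [hSN] at h4
  set B := ∑ w : ZMod p × ZMod p, (Bad p q k A S w).card with hB
  have h2' : (N:ℝ) * (p * (A.card * q)) ≤ p * p * r + B := by exact_mod_cast h2
  have h3' : ((k:ℝ) - 1) * B ≤ (prs S).card * (A.card * (q * (q + ((k:ℝ) - 1)))) := by
    have : (((k - 1 : ℕ) : ℝ)) = (k:ℝ) - 1 := by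
      rw [Nat.cast_sub (by omega)]; simp
    rw [← this]
    exact_mod_cast h3
  have h4' : 4 * ((prs S).card : ℝ) ≤ N ^ 2 := by exact_mod_cast h4
  have h5 : (B : ℝ) ≤ N ^ 2 / 4 * (A.card * (q * (q + ((k:ℝ) - 1)))) / ((k:ℝ) - 1) := by
    rw [le_div_iff₀ hk1]
    have h6 : (0:ℝ) ≤ A.card * (q * (q + ((k:ℝ) - 1))) := by positivity
    nlinarith
  have h7 : (A.card : ℝ) * (N * ((q:ℝ) / p) - N ^ 2 / 4 * (((q:ℝ) / p) *
      (((q:ℝ) + (k - 1)) / p)) / ((k:ℝ) - 1)) =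
      (N * (p * (A.card * q)) - N ^ 2 / 4 * (A.card * (q * (q + ((k:ℝ) - 1)))) /
        ((k:ℝ) - 1)) / (p * p) := by
    field_simp
  rw [h7, div_le_iff₀ (by positivity)]
  nlinarith

end dilate

open Filter Topology in
/-- the comparison for one set -/
theorem compare {N k r : ℕ} (hk : 3 ≤ k) {A : Finset ℤ} (hN : 1 ≤ N)
    (hA : A ⊆ Icc 1 (N : ℤ)) (hAf : ∀ a d : ℤ, 0 < d → ∃ j < k, a + j * d ∉ A) (S : Finset ℤ)
    (hSN : S.card = N)
    (hr : ∀ T ⊆ S, (∀ a d : ℤ, 0 < d → ∃ j < k, a + j * d ∉ T) → T.card ≤ r) :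
    ((1:ℝ) / 4 - 1 / (64 * ((k:ℝ) - 1))) * A.card ≤ r := by
  have hk1 : (0:ℝ) < (k:ℝ) - 1 := by
    have : (3:ℝ) ≤ k := by exact_mod_cast hk
    linarith
  have hN0 : (0:ℝ) < N := by exact_mod_cast hN
  -- primes
  let P : ℕ → ℕ := fun n => Nat.nth Nat.Prime n
  have hPp : ∀ n, (P n).Prime := fun n => Nat.prime_nth_prime n
  have hPt : Tendsto P atTop atTop := (Nat.nth_strictMono Nat.infinite_setOfPred_prime).tendsto_atTop
  have hPr : Tendsto (fun n => ((P n : ℕ) : ℝ)) atTop atTop :=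
    tendsto_natCast_atTop_atTop.comp hPt
  let Q : ℕ → ℕ := fun n => P n / (4 * N)
  have hQ : Tendsto (fun n => ((Q n : ℕ) : ℝ) / (P n : ℝ)) atTop (𝓝 (1 / (4 * N))) := by
    have h1 : Tendsto (fun x : ℝ => (⌊(1 / (4 * (N:ℝ))) * x⌋₊ : ℝ) / x) atTop
        (𝓝 (1 / (4 * (N:ℝ)))) := tendsto_nat_floor_mul_div_atTop (by positivity)
    have h2 := h1.comp hPr
    refine h2.congr fun n => ?_
    simp only [Function.comp, Q]
    congr 2
    have h3 : (1 / (4 * (N:ℝ))) * (P n : ℝ) = ((P n : ℕ) : ℝ) / ((4 * N : ℕ) : ℝ) := by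
      push_cast; field_simp
    rw [h3, Nat.floor_div_eq_div]
  have hQ2 : Tendsto (fun n => (((Q n : ℕ) : ℝ) + ((k:ℝ) - 1)) / (P n : ℝ)) atTop
      (𝓝 (1 / (4 * N))) := by
    have h1 : Tendsto (fun n => ((k:ℝ) - 1) / (P n : ℝ)) atTop (𝓝 0) :=
      Tendsto.div_atTop tendsto_const_nhds hPr
    have h2 := hQ.add h1
    rw [add_zero] at h2
    refine h2.congr fun n => ?_
    rw [add_div]
  have hlim : Tendsto (fun n => (A.card : ℝ) * (N * ((Q n : ℝ) / P n) -
      N ^ 2 / 4 * (((Q n : ℝ) / P n) * (((Q n : ℝ) + (k - 1)) / P n)) / ((k:ℝ) - 1))) atTop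
      (𝓝 ((A.card : ℝ) * (N * (1 / (4 * N)) -
        N ^ 2 / 4 * ((1 / (4 * N)) * (1 / (4 * N))) / ((k:ℝ) - 1)))) := by
    refine tendsto_const_nhds.mul ?_
    refine (tendsto_const_nhds.mul hQ).sub ?_
    refine Tendsto.div_const ?_ _
    exact tendsto_const_nhds.mul (hQ.mul hQ2)
  have hval : (A.card : ℝ) * (N * (1 / (4 * N)) -
        N ^ 2 / 4 * ((1 / (4 * N)) * (1 / (4 * N))) / ((k:ℝ) - 1)) =
        ((1:ℝ) / 4 - 1 / (64 * ((k:ℝ) - 1))) * A.card := by
    field_simp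
    ring
  rw [hval] at hlim
  refine le_of_tendsto hlim ?_
  -- eventually the hypotheses hold
  have hbig : ∀ᶠ n in atTop, 4 * N ≤ P n ∧ (∑ x ∈ S, x.natAbs) * 2 + 1 ≤ P n :=
    (hPt.eventually_ge_atTop _).and (hPt.eventually_ge_atTop _)
  filter_upwards [hbig] with n hn
  have : Fact (P n).Prime := ⟨hPp n⟩
  refine ineq_prime (P n) (Q n) hk (Nat.div_pos hn.1 (by omega)) ?_ hA hAf S hSN ?_ hr
  · exact Nat.mul_div_le (P n) (4 * N)
  · intro x hx y hy hxy h0
    rw [ZMod.intCast_zmod_eq_zero_iff_dvd] at h0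
    have h1 : x.natAbs ≤ ∑ x ∈ S, x.natAbs :=
      Finset.single_le_sum (f := fun x : ℤ => x.natAbs) (fun _ _ => Nat.zero_le _) hx
    have h2 : y.natAbs ≤ ∑ x ∈ S, x.natAbs :=
      Finset.single_le_sum (f := fun x : ℤ => x.natAbs) (fun _ _ => Nat.zero_le _) hy
    have h3 := Int.le_of_dvd (by omega) h0
    omega

theorem maxAPFreeCard_spec {k : ℕ} (hk : 3 ≤ k) (S : Finset ℤ) :
    (∃ T ⊆ S, (∀ a d : ℤ, 0 < d → ∃ j < k, a + j * d ∉ T) ∧ T.card = S.maxAPFreeCard k) ∧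
    ∀ T ⊆ S, (∀ a d : ℤ, 0 < d → ∃ j < k, a + j * d ∉ T) → T.card ≤ S.maxAPFreeCard k := by
  constructor
  · have hne : (S.powerset.filter fun t : Finset ℤ => (t : Set ℤ).IsAPOfLengthFree k).Nonempty := by
      refine ⟨∅, ?_⟩
      rw [Finset.mem_filter, apfree_iff hk]
      refine ⟨by simp, fun a d _ => ⟨0, by omega, by simp⟩⟩
    obtain ⟨T, hT, hTe⟩ := Finset.exists_mem_eq_sup _ hne Finset.card
    rw [Finset.mem_filter, Finset.mem_powerset, apfree_iff hk] at hT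
    exact ⟨T, hT.1, hT.2, hTe.symm⟩
  · intro T hT hf
    refine Finset.le_sup (f := Finset.card) ?_
    rw [Finset.mem_filter, Finset.mem_powerset, apfree_iff hk]
    exact ⟨hT, hf⟩

theorem main (k N : ℕ) (hk : 3 ≤ k) :
    ((1:ℝ) / 4 - 1 / (64 * ((k:ℝ) - 1))) * (Nb572fa8d.R k N : ℝ) ≤ (Nb572fa8d.G k N : ℝ) := by
  have hGmem : Nb572fa8d.G k N ∈ {m : ℕ | ∃ s : Finset ℤ, s.card = N ∧ s.maxAPFreeCard k = m} := by
    refine Nat.sInf_mem ?_
    refine ⟨_, (Finset.Icc (1:ℤ) N), ?_, rfl⟩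
    simp
  obtain ⟨S, hSN, hSG⟩ := hGmem
  obtain ⟨⟨A, hA, hAf, hAc⟩, _⟩ := maxAPFreeCard_spec hk (Finset.Icc (1:ℤ) N)
  rcases Nat.eq_zero_or_pos N with h0 | hN
  · subst h0
    have : Nb572fa8d.R k 0 = 0 := by
      unfold Nb572fa8d.R
      rw [← hAc, Finset.card_eq_zero, ← Finset.subset_empty]
      simpa using hA
    rw [this]
    simp
  · have h1 := compare hk hN hA hAf S hSN (maxAPFreeCard_spec hk S).2
    rw [hSG, hAc] at h1
    exact h1

end

end Pool.Agent.MPbdcdc5
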