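import Mathlib
import Pool.Prelude.Def_F_58bd55a0

/-!
# MP_bdcdc5_co, NearInterval: basic facts on `R k N`

`R k N` is the function of the frozen statements.  `APFree k T`: no `k`-term arithmetic progression with nonzero difference.
-/

set_option autoImplicit false

namespace Pool.MP_bdcdc5.NI

open Finset Nb572fa8d

/-- `T` has no `k`-term arithmetic progression with nonzero difference -/
def APFree (k : ℕ) (T : Finset ℤ) : Prop :=
  ∀ a d : ℤ, d ≠ 0 → ∃ i : ℕ, i < k ∧ a + i * d ∉ T

theorem APFree.mono {k : ℕ} {T U : Finset ℤ} (h : APFree k U) (hT : T ⊆ U) : APFree k T := by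
  intro a d hd
  obtain ⟨i, hi, h2⟩ := h a d hd
  exact ⟨i, hi, fun h3 => h2 (hT h3)⟩

private theorem apSet_eq (k : ℕ) (a d : ℤ) :
    ({x | ∃ (n : ℕ) (_ : (n : ℕ∞) < (k : ℕ∞)), a + n • d = x} : Set ℤ) =
      ((range k).image (fun n : ℕ => a + n * d) : Finset ℤ) := by
  ext x
  simp only [Set.mem_ofPred_eq, coe_image, Set.mem_image, mem_coe, mem_range, exists_prop, Nat.cast_lt, nsmul_eq_mul]

theorem free_iff {k : ℕ} (hk : 2 ≤ k) (T : Finset ℤ) : (T : Set ℤ).IsAPOfLengthFree k ↔ APFree k T := by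
  constructor
  · intro h a d hd
    by_contra hcon
    push Not at hcon
    have h1 := h ((range k).image (fun n : ℕ => a + n * d) : Finset ℤ) (by
      intro x hx
      obtain ⟨n, hn, rfl⟩ := mem_image.mp (mem_coe.mp hx)
      exact hcon n (mem_range.mp hn)) ⟨a, d, ?_, (apSet_eq k a d).symm⟩
    · have h2 : (k : ℕ∞) ≤ ((1 : ℕ) : ℕ∞) := by exact_mod_cast h1
      have h3 : k ≤ 1 := by exact_mod_cast h2
      omega
    · rw [ENat.card_coe_set_eq, Set.encard_coe_eq_coe_finsetCard, card_image_of_injective, card_range]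
      intro x y hxy
      have h2 : a + (x : ℤ) * d = a + (y : ℤ) * d := hxy
      have h3 : (x : ℤ) * d = (y : ℤ) * d := by linarith
      exact_mod_cast mul_right_cancel₀ hd h3
  · intro h t ht hAP
    exfalso
    obtain ⟨a, d, h1, h2⟩ := hAP
    rw [apSet_eq] at h2
    have hd : d ≠ 0 := by
      rintro rfl
      rw [h2, ENat.card_coe_set_eq, Set.encard_coe_eq_coe_finsetCard] at h1
      have h3 : ((range k).image (fun n : ℕ => a + (n : ℤ) * 0)).card ≤ 1 := by
        refine card_le_one.mpr ?_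
        intro x hx y hy
        obtain ⟨n, _, rfl⟩ := mem_image.mp hx
        obtain ⟨m, _, rfl⟩ := mem_image.mp hy
        simp
      have h4 : ((range k).image (fun n : ℕ => a + (n : ℤ) * 0)).card = k := by exact_mod_cast h1
      omega
    obtain ⟨i, hi, h3⟩ := h a d hd
    refine h3 (mem_coe.mp (ht ?_))
    rw [h2]
    exact mem_coe.mpr (mem_image.mpr ⟨i, mem_range.mpr hi, rfl⟩)

/-- three-term progressions -/
theorem apFree_three (T : Finset ℤ) :
    APFree 3 T ↔ ∀ a ∈ T, ∀ b ∈ T, ∀ c ∈ T, a + c = 2 * b → a = b := by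
  constructor
  · intro h a ha b hb c hc habc
    by_contra hne
    obtain ⟨i, hi, h2⟩ := h a (b - a) (fun h0 => hne (by linarith))
    apply h2
    interval_cases i
    · simpa using ha
    · simpa using hb
    · have : a + ((2 : ℕ) : ℤ) * (b - a) = c := by push_cast; linarith
      rw [this]
      exact hc
  · intro h a d hd
    by_contra hcon
    push Not at hcon
    have h0 := hcon 0 (by norm_num)
    have h1 := hcon 1 (by norm_num)
    have h2 := hcon 2 (by norm_num)
    have := h _ h0 _ h1 _ h2 (by push_cast; ring)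
    push_cast at this
    exact hd (by linarith)

/-- an optimal subset -/
theorem max_spec {k : ℕ} (hk : 2 ≤ k) (S : Finset ℤ) : ∃ T ⊆ S, APFree k T ∧ T.card = S.maxAPFreeCard k := by
  classical
  unfold Finset.maxAPFreeCard
  have hne : (S.powerset.filter fun t : Finset ℤ ↦ (t : Set ℤ).IsAPOfLengthFree k).Nonempty := by
    refine ⟨∅, mem_filter.mpr ⟨empty_mem_powerset S, (free_iff hk ∅).mpr ?_⟩⟩
    intro a d _
    exact ⟨0, by omega, notMem_empty _⟩
  obtain ⟨T, hT, h2⟩ := exists_mem_eq_sup _ hne Finset.card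
  have h3 := mem_filter.mp hT
  refine ⟨T, mem_powerset.mp h3.1, (free_iff hk T).mp h3.2, ?_⟩
  rw [← h2]

theorem le_max {k : ℕ} (hk : 2 ≤ k) {S T : Finset ℤ} (hT : T ⊆ S) (hf : APFree k T) : T.card ≤ S.maxAPFreeCard k := by
  classical
  unfold Finset.maxAPFreeCard
  have h1 : T ∈ S.powerset.filter fun t : Finset ℤ ↦ (t : Set ℤ).IsAPOfLengthFree k :=
    mem_filter.mpr ⟨mem_powerset.mpr hT, (free_iff hk T).mpr hf⟩
  have h2 := Finset.le_sup (f := Finset.card) h1
  convert h2

/-- the values of a sequence without second differences -/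
theorem seq_ap {k : ℕ} (f : ℕ → ℤ) (h : ∀ j, j + 2 < k → f j + f (j + 2) = 2 * f (j + 1)) :
    ∀ i, i < k → f i = f 0 + i * (f 1 - f 0) := by
  intro i
  induction i using Nat.strong_induction_on with
  | _ i ih =>
    intro hi
    rcases i with _ | _ | i
    · push_cast
      ring
    · push_cast
      ring
    · have h1 := ih i (by omega) (by omega)
      have h2 := ih (i + 1) (by omega) (by omega)
      have h3 := h i hi
      have e : f (i + 2) = 2 * f (i + 1) - f i := by linarith
      show f (i + 2) = _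
      rw [e, h1, h2]
      push_cast
      ring

theorem R_spec {k : ℕ} (hk : 2 ≤ k) (N : ℕ) : ∃ A : Finset ℤ, A ⊆ Icc (1 : ℤ) N ∧ APFree k A ∧ A.card = R k N :=
  max_spec hk _

theorem card_le_R {k : ℕ} (hk : 2 ≤ k) {N : ℕ} {A : Finset ℤ} (hA : A ⊆ Icc (1 : ℤ) N) (hf : APFree k A) :
    A.card ≤ R k N := le_max hk hA hf

theorem APFree.translate {k : ℕ} {T : Finset ℤ} (h : APFree k T) (t : ℤ) : APFree k (T.image fun x : ℤ => x + t) := by
  intro a d hd
  obtain ⟨i, hi, h2⟩ := h (a - t) d hd
  refine ⟨i, hi, fun h3 => h2 ?_⟩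
  obtain ⟨x, hx, h4⟩ := mem_image.mp h3
  have h5 : x = a - t + i * d := by
    have : x + t = a + i * d := h4
    linarith
  rw [← h5]
  exact hx

end Pool.MP_bdcdc5.NI
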