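import Mathlib
import Pool.Agent.Lib.MP_bdcdc5_co.NIBasic

/-!
# MP_bdcdc5_co: sets of `N` integers in an interval of length `N + D`

`near_interval`: `R_k(N) ≤ r_k(S) + R_k(D)`.  Proof: let `U ⊆ [1, N + D]` be the image of `S` and `A ⊆ [1, N]` optimal.  The complement of `U` has `D` elements `y`, and at most `R_k(D)`
of the shifts `t ∈ [0, D)` have `y - t ∈ A`.  So for some `t` at most `R_k(D)` elements of `A + t` lie outside of `U`.
`R_super`: `R_k(m) R_k(D) ≤ R_k((2 m - 1) D)`.
-/

set_option autoImplicit false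

namespace Pool.MP_bdcdc5.NI

open Finset Nb572fa8d

theorem R_mono {k : ℕ} (hk : 2 ≤ k) {a b : ℕ} (hab : a ≤ b) : R k a ≤ R k b := by
  obtain ⟨A, hA, hf, hc⟩ := R_spec hk a
  rw [← hc]
  refine card_le_R hk (hA.trans ?_) hf
  intro x hx
  have := mem_Icc.mp hx
  rw [mem_Icc]
  omega

/-- the number of elements of an interval of length `D` in a set without progressions -/
private theorem card_window {k : ℕ} (hk : 2 ≤ k) {A : Finset ℤ} (hf : APFree k A) (D : ℕ) (y : ℤ) :
    ((range D).filter (fun t : ℕ => y - t ∈ A)).card ≤ R k D := by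
  classical
  have h1 : ((range D).filter (fun t : ℕ => y - t ∈ A)).card =
      (((range D).filter (fun t : ℕ => y - t ∈ A)).image (fun t : ℕ => y - t + (D - y))).card := by
    refine (card_image_of_injective _ ?_).symm
    intro a b hab
    have : y - (a : ℤ) + (D - y) = y - (b : ℤ) + (D - y) := hab
    omega
  rw [h1]
  refine card_le_R hk ?_ ((hf.translate (D - y)).mono ?_)
  · intro x hx
    obtain ⟨t, ht, rfl⟩ := mem_image.mp hx
    have := mem_range.mp (mem_filter.mp ht).1
    rw [mem_Icc]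
    omega
  · intro x hx
    obtain ⟨t, ht, rfl⟩ := mem_image.mp hx
    exact mem_image.mpr ⟨y - t, (mem_filter.mp ht).2, rfl⟩

theorem near_interval {k : ℕ} (hk : 3 ≤ k) (S : Finset ℤ) (φ : ℤ → ℤ) (hinj : Set.InjOn φ S)
    (hap : ∀ x ∈ S, ∀ y ∈ S, ∀ z ∈ S, x + z = 2 * y → φ x + φ z = 2 * φ y) (D : ℕ)
    (hφ : ∀ x ∈ S, 1 ≤ φ x ∧ φ x ≤ S.card + D) : R k S.card ≤ S.maxAPFreeCard k + R k D := by
  classical
  obtain ⟨A, hA, hf, hc⟩ := R_spec (by omega : 2 ≤ k) S.card
  let U := S.image φ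
  have hU : U ⊆ Icc (1 : ℤ) (S.card + D) := by
    intro y hy
    obtain ⟨x, hx, rfl⟩ := mem_image.mp hy
    exact mem_Icc.mpr (hφ x hx)
  have hUc : U.card = S.card := card_image_of_injOn hinj
  -- the sets
  have hT : ∀ t : ℤ, (A.filter (fun a => a + t ∈ U)).card ≤ S.maxAPFreeCard k := by
    intro t
    have h1 : (A.filter (fun a => a + t ∈ U)).card ≤ (S.filter (fun x => φ x + -t ∈ A)).card := by
      have h2 : (A.filter (fun a => a + t ∈ U)) ⊆ (S.filter (fun x => φ x + -t ∈ A)).image (fun x => φ x + -t) := by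
        intro a ha
        obtain ⟨ha1, ha2⟩ := mem_filter.mp ha
        obtain ⟨x, hx, hxa⟩ := mem_image.mp ha2
        have e : φ x + -t = a := by rw [hxa]; ring
        exact mem_image.mpr ⟨x, mem_filter.mpr ⟨hx, by rw [e]; exact ha1⟩, e⟩
      exact (card_le_card h2).trans card_image_le
    refine h1.trans (le_max (by omega) (filter_subset _ _) ?_)
    intro a d hd
    by_contra hcon
    push Not at hcon
    have hmem : ∀ i : ℕ, i < k → a + i * d ∈ S ∧ φ (a + i * d) + -t ∈ A := fun i hi => mem_filter.mp (hcon i hi)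
    have h2 := seq_ap (k := k) (fun i => φ (a + i * d) + -t) (fun j hj => by
      have := hap _ (hmem j (by omega)).1 _ (hmem (j + 1) (by omega)).1 _ (hmem (j + 2) hj).1 (by push_cast; ring)
      show φ (a + j * d) + -t + (φ (a + ((j + 2 : ℕ) : ℤ) * d) + -t) = 2 * (φ (a + ((j + 1 : ℕ) : ℤ) * d) + -t)
      linarith)
    have hne : (fun i : ℕ => φ (a + i * d) + -t) 1 - (fun i : ℕ => φ (a + i * d) + -t) 0 ≠ 0 := by
      intro h0
      have h3 : φ (a + ((1 : ℕ) : ℤ) * d) = φ (a + ((0 : ℕ) : ℤ) * d) := by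
        have h0' : φ (a + ((1 : ℕ) : ℤ) * d) + -t - (φ (a + ((0 : ℕ) : ℤ) * d) + -t) = 0 := h0
        linarith
      have h4 := hinj (hmem 1 (by omega)).1 (hmem 0 (by omega)).1 h3
      push_cast at h4
      exact hd (by linarith)
    obtain ⟨i, hi, h3⟩ := hf _ _ hne
    apply h3
    rw [← h2 i hi]
    exact (hmem i hi).2
  have hsplit : ∀ t : ℤ, A.card = (A.filter (fun a => a + t ∈ U)).card + (A.filter (fun a => ¬ a + t ∈ U)).card := fun t =>
    (card_filter_add_card_filter_not _).symm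
  rcases Nat.eq_zero_or_pos D with hD | hD
  · have h1 : U = Icc (1 : ℤ) S.card := by
      refine eq_of_subset_of_card_le (hU.trans ?_) ?_
      · rw [hD]
        simp
      · rw [hUc]
        simp
    have h2 : A.filter (fun a => ¬ a + 0 ∈ U) = ∅ := by
      refine filter_eq_empty_iff.mpr ?_
      intro a ha hn
      apply hn
      rw [h1, add_zero]
      exact hA ha
    have h3 := hsplit 0
    rw [h2, card_empty] at h3
    have h4 := hT 0
    omega
  · by_contra hcon
    push Not at hcon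
    have h1 : ∀ t ∈ range D, R k D + 1 ≤ (A.filter (fun a => ¬ a + (t : ℤ) ∈ U)).card := by
      intro t _
      have h2 := hT (t : ℤ)
      have h3 := hsplit (t : ℤ)
      omega
    have h2 : D * (R k D + 1) ≤ ∑ t ∈ range D, (A.filter (fun a => ¬ a + (t : ℤ) ∈ U)).card := by
      have h3 := card_nsmul_le_sum (range D) _ _ h1
      rwa [card_range, smul_eq_mul] at h3
    have h3 : ∑ t ∈ range D, (A.filter (fun a => ¬ a + (t : ℤ) ∈ U)).card ≤
        ∑ t ∈ range D, ((Icc (1 : ℤ) (S.card + D) \ U).filter (fun y => y - (t : ℤ) ∈ A)).card := by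
      refine sum_le_sum fun t ht => ?_
      refine card_le_card_of_injOn (fun a => a + (t : ℤ)) ?_ (fun a _ b _ h => by
        have : a + (t : ℤ) = b + (t : ℤ) := h
        linarith)
      intro a ha
      obtain ⟨ha1, ha2⟩ := mem_filter.mp (mem_coe.mp ha)
      have h4 := mem_Icc.mp (hA ha1)
      have h5 := mem_range.mp ht
      show a + (t : ℤ) ∈ ((Icc (1 : ℤ) (S.card + D) \ U).filter (fun y => y - (t : ℤ) ∈ A) : Finset ℤ)
      rw [mem_filter, mem_sdiff, mem_Icc]
      refine ⟨⟨⟨by omega, by omega⟩, ha2⟩, ?_⟩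
      rw [add_sub_cancel_right]
      exact ha1
    have h4 : ∑ t ∈ range D, ((Icc (1 : ℤ) (S.card + D) \ U).filter (fun y => y - (t : ℤ) ∈ A)).card =
        ∑ y ∈ Icc (1 : ℤ) (S.card + D) \ U, ((range D).filter (fun t : ℕ => y - (t : ℤ) ∈ A)).card := by
      simp only [card_filter]
      exact sum_comm
    have h5 : ∑ y ∈ Icc (1 : ℤ) (S.card + D) \ U, ((range D).filter (fun t : ℕ => y - (t : ℤ) ∈ A)).card ≤
        (Icc (1 : ℤ) (S.card + D) \ U).card * R k D := by
      rw [← smul_eq_mul]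
      exact sum_le_card_nsmul _ _ _ fun y _ => card_window (by omega) hf D y
    have h6 : (Icc (1 : ℤ) (S.card + D) \ U).card = D := by
      rw [card_sdiff_of_subset hU, hUc, Int.card_Icc]
      omega
    rw [h6] at h5
    have h7 : D * (R k D + 1) = D * R k D + D := by ring
    omega

/-- `R_k(m) R_k(D) ≤ R_k((2 m - 1) D)` -/
theorem R_super {k : ℕ} (hk : 3 ≤ k) (m D : ℕ) (hm : 1 ≤ m) : R k m * R k D ≤ R k ((2 * m - 1) * D) := by
  classical
  obtain ⟨A, hA, hfA, hcA⟩ := R_spec (by omega : 2 ≤ k) m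
  obtain ⟨B, hB, hfB, hcB⟩ := R_spec (by omega : 2 ≤ k) D
  have hbd : ∀ b ∈ B, 1 ≤ b ∧ b ≤ (D : ℤ) := fun b hb => mem_Icc.mp (hB hb)
  have key : ∀ a ∈ A, ∀ b ∈ B, ∀ a' ∈ A, ∀ b' ∈ B, 2 * (D : ℤ) * (a - 1) + b = 2 * D * (a' - 1) + b' → a = a' ∧ b = b' := by
    intro a _ b hb a' _ b' hb' h
    have h1 := hbd b hb
    have h2 := hbd b' hb'
    have h3 : 2 * (D : ℤ) * (a - a') = b' - b := by linarith
    have h4 : a - a' = 0 := by
      by_contra hne
      rcases lt_or_gt_of_ne hne with h | h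
      · have : a - a' ≤ -1 := by omega
        have : 2 * (D : ℤ) * (a - a') ≤ 2 * D * (-1) := mul_le_mul_of_nonneg_left this (by positivity)
        omega
      · have : 1 ≤ a - a' := by omega
        have : 2 * (D : ℤ) * 1 ≤ 2 * D * (a - a') := mul_le_mul_of_nonneg_left this (by positivity)
        omega
    rw [h4, mul_zero] at h3
    exact ⟨by omega, by omega⟩
  have hcard : ((A ×ˢ B).image (fun q : ℤ × ℤ => 2 * (D : ℤ) * (q.1 - 1) + q.2)).card = R k m * R k D := by
    rw [card_image_of_injOn, card_product, hcA, hcB]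
    intro q hq q' hq' h
    have h1 := mem_product.mp (mem_coe.mp hq)
    have h2 := mem_product.mp (mem_coe.mp hq')
    have h3 := key q.1 h1.1 q.2 h1.2 q'.1 h2.1 q'.2 h2.2 h
    exact Prod.ext h3.1 h3.2
  rw [← hcard]
  refine card_le_R (by omega) ?_ ?_
  · intro x hx
    obtain ⟨q, hq, rfl⟩ := mem_image.mp hx
    have h1 := mem_product.mp hq
    have h2 := mem_Icc.mp (hA h1.1)
    have h3 := hbd q.2 h1.2
    have h4 : (0 : ℤ) ≤ 2 * D * (q.1 - 1) := by
      have : 0 ≤ q.1 - 1 := by omega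
      positivity
    have h5 : 2 * (D : ℤ) * (q.1 - 1) ≤ 2 * D * (m - 1) := mul_le_mul_of_nonneg_left (by omega) (by positivity)
    have h6 : (((2 * m - 1) * D : ℕ) : ℤ) = 2 * D * (m - 1) + D := by
      rw [Nat.cast_mul, Nat.cast_sub (by omega)]
      push_cast
      ring
    rw [mem_Icc, h6]
    constructor
    · linarith
    · linarith
  · intro a d hd
    by_contra hcon
    push Not at hcon
    have hex : ∀ i : ℕ, ∃ q : ℤ × ℤ, i < k → q.1 ∈ A ∧ q.2 ∈ B ∧ 2 * (D : ℤ) * (q.1 - 1) + q.2 = a + i * d := by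
      intro i
      by_cases hi : i < k
      · obtain ⟨q, hq, h1⟩ := mem_image.mp (hcon i hi)
        have h2 := mem_product.mp hq
        exact ⟨q, fun _ => ⟨h2.1, h2.2, h1⟩⟩
      · exact ⟨(0, 0), fun h => absurd h hi⟩
    choose q hq using hex
    have hsec : ∀ j, j + 2 < k → (q j).1 + (q (j + 2)).1 = 2 * (q (j + 1)).1 ∧ (q j).2 + (q (j + 2)).2 = 2 * (q (j + 1)).2 := by
      intro j hj
      obtain ⟨_, b0, e0⟩ := hq j (by omega)
      obtain ⟨_, b1, e1⟩ := hq (j + 1) (by omega)
      obtain ⟨_, b2, e2⟩ := hq (j + 2) hj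
      have c0 := hbd _ b0
      have c1 := hbd _ b1
      have c2 := hbd _ b2
      push_cast at e1 e2
      obtain ⟨u, hu⟩ : ∃ u, u = (q j).1 + (q (j + 2)).1 - 2 * (q (j + 1)).1 := ⟨_, rfl⟩
      have h3 : 2 * (D : ℤ) * u = 2 * (q (j + 1)).2 - (q j).2 - (q (j + 2)).2 := by
        rw [hu]
        linear_combination e0 + e2 - 2 * e1
      have h4 : u = 0 := by
        by_contra hne
        rcases lt_or_gt_of_ne hne with h | h
        · have : u ≤ -1 := by omega
          have : 2 * (D : ℤ) * u ≤ 2 * D * (-1) := mul_le_mul_of_nonneg_left this (by positivity)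
          omega
        · have : 1 ≤ u := by omega
          have : 2 * (D : ℤ) * 1 ≤ 2 * D * u := mul_le_mul_of_nonneg_left this (by positivity)
          omega
      rw [h4, mul_zero] at h3
      constructor
      · omega
      · omega
    have hA2 := seq_ap (k := k) (fun j => (q j).1) (fun j hj => (hsec j hj).1)
    have hB2 := seq_ap (k := k) (fun j => (q j).2) (fun j hj => (hsec j hj).2)
    by_cases h1 : (q 1).1 - (q 0).1 = 0
    · by_cases h2 : (q 1).2 - (q 0).2 = 0
      · have e0 := (hq 0 (by omega)).2.2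
        have e1 := (hq 1 (by omega)).2.2
        have h3 : (q 1).1 = (q 0).1 := by omega
        have h4 : (q 1).2 = (q 0).2 := by omega
        rw [h3, h4, e0] at e1
        push_cast at e1
        exact hd (by linarith)
      · obtain ⟨i, hi, h3⟩ := hfB _ _ h2
        exact h3 (by
          rw [← hB2 i hi]
          exact (hq i hi).2.1)
    · obtain ⟨i, hi, h3⟩ := hfA _ _ h1
      exact h3 (by
        rw [← hA2 i hi]
        exact (hq i hi).1)

end Pool.MP_bdcdc5.NI
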